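import Pool.Agent.Lib.MP_7b7e48_nt.OA.AFIN

/-!
# Goldbach's problem for integers with an odd number of prime factors: `N^(1-ε)` representations of EVERY large `N`

`Ω` is the number of prime factors, counted with multiplicity; `i, j` are in `{0, 1}`.

(1) Let `q ≥ 1` and `ε > 0`. For all large `N` (even or odd) and all residue classes `a`, `b` modulo `q` which are coprime to `q` and
satisfy `a + b ≡ N`, the number of `0 < n < N`, `n ≠ N - n`, `n ≡ a` (so `N - n ≡ b`) with `Ω n ≡ i` and `Ω (N - n) ≡ j`
modulo `2` is at least `N ^ (1 - ε)`.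

(2) The same for all large even `N` and the `0 < n < N`, `n ≠ N - n`, such that all prime factors of `n` and of `N - n` are
`> w`. In particular, for every `w`, every large even integer `N` is in at least `N ^ (1 - ε)` ways the sum of two different positive
integers which both have an odd number of prime factors, all of them larger than `w`.
-/

open Pool.Agent.Lib.OA

namespace Pool.Agent.Results.MP_7b7e48_nt.AllNLiouvilleGoldbach

/-- the `0 < n < N` with `n ≠ N - n` and `n ≡ a` modulo `q` such that the numbers of prime factors of `n` and of `N - n`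
(with multiplicity) are congruent to `i` and to `j` modulo `2` -/
def reps (q N a i j : ℕ) : Finset ℕ :=
  (Finset.Ioo 0 N).filter fun n => n ≠ N - n ∧ n % q = a % q ∧
    ArithmeticFunction.cardFactors n % 2 = i ∧ ArithmeticFunction.cardFactors (N - n) % 2 = j

/-- the `0 < n < N` with `n ≠ N - n` such that the numbers of prime factors of `n` and of `N - n` (with multiplicity) are
congruent to `i` and to `j` modulo `2` and all these prime factors are larger than `w` -/
def roughReps (w N i j : ℕ) : Finset ℕ :=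
  (Finset.Ioo 0 N).filter fun n => n ≠ N - n ∧
    ArithmeticFunction.cardFactors n % 2 = i ∧ ArithmeticFunction.cardFactors (N - n) % 2 = j ∧
    ∀ p ∈ (n * (N - n)).primeFactors, w < p

theorem result :
    (∀ q : ℕ, 1 ≤ q → ∀ ε : ℝ, 0 < ε → ∃ N₀ : ℕ, ∀ N : ℕ, N₀ ≤ N → ∀ a b : ℕ, a.Coprime q → b.Coprime q →
      a + b ≡ N [MOD q] → ∀ i j : ℕ, i < 2 → j < 2 → (N : ℝ) ^ (1 - ε) ≤ ((reps q N a i j).card : ℝ)) ∧
    (∀ w : ℕ, ∀ ε : ℝ, 0 < ε → ∃ N₀ : ℕ, ∀ N : ℕ, N₀ ≤ N → Even N → ∀ i j : ℕ, i < 2 → j < 2 →
      (N : ℝ) ^ (1 - ε) ≤ ((roughReps w N i j).card : ℝ)) :=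
  ⟨afin_cls, afin_rough⟩

end Pool.Agent.Results.MP_7b7e48_nt.AllNLiouvilleGoldbach
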