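import Pool.Agent.Lib.SH.All8

/-!
# MP_7b7e48: Goldbach for almost all even numbers with sets of primes which meet all clusters

For every `m` there is `H` such that any two sets `A`, `B` of primes which meet (almost) every interval
`(x, x + H]` with at least `m` primes satisfy: all but at most `X / (log X) ^ D` (for every `D`) of the even
numbers `2n ≤ 2X` are sums `p + q` with `p ∈ A`, `q ∈ B`, `p ≠ q`.  In particular: any two sets `S`, `T` of
integers which meet every `m` consecutive integers may be prescribed for the indices `π(p)` and `π(q)`.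
-/

set_option autoImplicit false

open Finset

namespace Pool.Agent.Results.MP_7b7e48_nt.ClusterGoldbach

open Classical in
/-- the number of `x ≤ Y` such that `(x, x + H]` contains at least `m` primes, but no prime of `A` -/
noncomputable def missed (m H Y : ℕ) (A : Set ℕ) : ℕ :=
  ((range (Y + 1)).filter (fun x => m ≤ ((Ioc x (x + H)).filter Nat.Prime).card ∧
    ∀ p ∈ Ioc x (x + H), p.Prime → p ∉ A)).card

open Classical in
/-- the number of `n ≤ Y` such that `{n + 1, ..., n + m}` contains no element of `S` -/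
noncomputable def gaps (m Y : ℕ) (S : Set ℕ) : ℕ :=
  ((range (Y + 1)).filter (fun n => ∀ b ∈ Ioc n (n + m), b ∉ S)).card

open Classical in
/-- the number of pairs of primes `p ∈ A`, `q ∈ B` with `p + q = 2n` and `p ≠ q` -/
noncomputable def reps (A B : Set ℕ) (n : ℕ) : ℕ :=
  ((range (2 * n)).filter (fun p => p.Prime ∧ (2 * n - p).Prime ∧ p ≠ n ∧ p ∈ A ∧ 2 * n - p ∈ B)).card

/-- the primes `p` with `π(p) ∈ S` -/
def indexed (S : Set ℕ) : Set ℕ := {p | p.Prime ∧ Nat.primeCounting p ∈ S}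

/-- `k` has no prime factor `≤ z` -/
def Rough (z k : ℕ) : Prop := ∀ q : ℕ, q.Prime → q ∣ k → z < q

open Classical in
/-- the primes in the windows `(x, x + H]` which `A` misses -/
private noncomputable def extra (m H Y : ℕ) (A : Set ℕ) : Finset ℕ :=
  ((range (Y + 1)).filter (fun x => m ≤ ((Ioc x (x + H)).filter Nat.Prime).card ∧
    ∀ p ∈ Ioc x (x + H), p.Prime → p ∉ A)).biUnion (fun x => Ioc x (x + H))

private theorem extra_card (m H Y : ℕ) (A : Set ℕ) : (extra m H Y A).card ≤ H * missed m H Y A := by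
  unfold extra missed
  refine card_biUnion_le.trans (le_of_eq ?_)
  rw [sum_congr rfl (fun x _ => by rw [Nat.card_Ioc, Nat.add_sub_cancel_left]), sum_const, smul_eq_mul,
    mul_comm]

private theorem extra_hit (m H Y : ℕ) (hm : 1 ≤ m) (A : Set ℕ) :
    Pool.Agent.Lib.SG.Hit m H Y (A ∪ ↑(extra m H Y A)) := by
  classical
  intro x hx hmx
  by_cases h : ∀ p ∈ Ioc x (x + H), p.Prime → p ∉ A
  · obtain ⟨p, hp⟩ := card_pos.1 (lt_of_lt_of_le hm hmx)
    rw [mem_filter, mem_Ioc] at hp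
    refine ⟨p, Or.inr ?_, hp.2, hp.1.1, hp.1.2⟩
    rw [mem_coe]
    unfold extra
    rw [mem_biUnion]
    refine ⟨x, ?_, mem_Ioc.2 hp.1⟩
    exact (@Finset.mem_filter _ _ (_) _ _).mpr ⟨mem_range.2 (by omega), hmx, h⟩
  · push Not at h
    obtain ⟨p, hp1, hp2, hp3⟩ := h
    rw [mem_Ioc] at hp1
    exact ⟨p, Or.inl hp3, hp2, hp1.1, hp1.2⟩

open Classical in
private noncomputable def repSet (A B : Set ℕ) (n : ℕ) : Finset ℕ :=
  (range (2 * n)).filter (fun p => p.Prime ∧ (2 * n - p).Prime ∧ p ≠ n ∧ p ∈ A ∧ 2 * n - p ∈ B)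

private theorem repSet_mem (A B : Set ℕ) (n p : ℕ) : p ∈ repSet A B n ↔ p < 2 * n ∧
    (p.Prime ∧ (2 * n - p).Prime ∧ p ≠ n ∧ p ∈ A ∧ 2 * n - p ∈ B) := by
  unfold repSet
  exact (@Finset.mem_filter _ _ (_) _ _).trans (by rw [mem_range])

private theorem repSet_card (A B : Set ℕ) (n : ℕ) : reps A B n = (repSet A B n).card := rfl

/-- adding few elements to the sets adds few representations -/
private theorem rep_le (A B : Set ℕ) (FA FB : Finset ℕ) (n : ℕ) :
    Pool.Agent.Lib.SG.rep (A ∪ ↑FA) (B ∪ ↑FB) (2 * n) ≤ reps A B n + (1 + FA.card + FB.card) := by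
  rw [repSet_card]
  have hcard : Pool.Agent.Lib.SG.rep (A ∪ ↑FA) (B ∪ ↑FB) (2 * n) ≤
      (repSet A B n ∪ (({n} ∪ FA) ∪ FB.image (fun b => 2 * n - b))).card := by
    unfold Pool.Agent.Lib.SG.rep
    apply card_le_card
    intro a ha
    obtain ⟨-, ha2, ha3, ha4, ha5⟩ := (@Finset.mem_filter _ _ (_) _ _).mp ha
    have hlt : a < 2 * n := by
      by_contra hc
      have : 2 * n - a = 0 := by omega
      rw [this] at ha5
      exact Nat.not_prime_zero ha5
    rw [mem_union, mem_union, mem_union]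
    by_cases h1 : a = n
    · right
      left
      left
      rw [mem_singleton]
      exact h1
    rcases ha2 with ha2 | ha2
    · rcases ha4 with ha4 | ha4
      · left
        rw [repSet_mem]
        exact ⟨hlt, ha3, ha5, h1, ha2, ha4⟩
      · right
        right
        rw [mem_image]
        exact ⟨2 * n - a, mem_coe.1 ha4, by omega⟩
    · right
      left
      right
      exact mem_coe.1 ha2
  have h2 := card_union_le (repSet A B n) (({n} ∪ FA) ∪ FB.image (fun b => 2 * n - b))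
  have h3 := card_union_le ({n} ∪ FA) (FB.image (fun b => 2 * n - b))
  have h4 := card_union_le {n} FA
  have h5 : (FB.image (fun b => 2 * n - b)).card ≤ FB.card := card_image_le
  rw [card_singleton] at h4
  omega

private theorem log_ev (K : ℝ) : ∃ X₀ : ℕ, ∀ X : ℕ, X₀ ≤ X → K ≤ Real.log X := by
  have t1 : Filter.Tendsto (fun X : ℕ => Real.log (X : ℝ)) Filter.atTop Filter.atTop :=
    Real.tendsto_log_atTop.comp tendsto_natCast_atTop_atTop
  exact Filter.eventually_atTop.mp (t1.eventually_ge_atTop K)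

private theorem pow_ev (C : ℕ) : ∃ X₀ : ℕ, ∀ X : ℕ, X₀ ≤ X → (Real.log X) ^ C ≤ X := by
  have t1 := (isLittleO_log_rpow_rpow_atTop (C : ℝ) (show (0 : ℝ) < 1 by norm_num)).bound
    (show (0 : ℝ) < 1 by norm_num)
  obtain ⟨x₀, h⟩ := Filter.eventually_atTop.mp t1
  obtain ⟨X₁, h1⟩ := log_ev 0
  refine ⟨max X₁ (⌈x₀⌉₊), fun X hX => ?_⟩
  rw [max_le_iff] at hX
  have h2 := h X (le_trans (Nat.le_ceil _) (by exact_mod_cast hX.2))
  have h3 := h1 X hX.1
  rw [Real.rpow_natCast, Real.rpow_one, one_mul, Real.norm_of_nonneg (by positivity),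
    Real.norm_of_nonneg (Nat.cast_nonneg _)] at h2
  exact h2

open Classical in
private theorem part1 (m : ℕ) (hm : 1 ≤ m) : ∃ H : ℕ, ∀ D : ℕ, ∃ C X₀ : ℕ, ∀ X : ℕ, X₀ ≤ X →
    ∀ A B : Set ℕ, (missed m H (2 * X) A : ℝ) ≤ X / (Real.log X) ^ C →
    (missed m H (2 * X) B : ℝ) ≤ X / (Real.log X) ^ C →
    (((Icc 1 X).filter (fun n => (reps A B n : ℝ) < X / (Real.log X) ^ C)).card : ℝ) ≤
      X / (Real.log X) ^ D := by
  obtain ⟨H, h0⟩ := Pool.Agent.Lib.SH.all8 m hm
  refine ⟨H, fun D => ?_⟩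
  obtain ⟨C, X₁, h⟩ := h0 D
  obtain ⟨X₂, h2⟩ := log_ev (2 * H + 3)
  obtain ⟨X₃, h3⟩ := pow_ev (C + 1)
  refine ⟨C + 1, max X₁ (max X₂ (max X₃ 1)), fun X hX A B hA hB => ?_⟩
  simp only [max_le_iff] at hX
  obtain ⟨hX1, hX2, hX3, hX4⟩ := hX
  have a2 := h2 X hX2
  have a3 := h3 X hX3
  have hH0 : (0 : ℝ) ≤ H := Nat.cast_nonneg H
  have hlog : 0 < Real.log X := by linarith
  refine le_trans ?_ (h X hX1 (A ∪ ↑(extra m H (2 * X) A)) (B ∪ ↑(extra m H (2 * X) B))
    (extra_hit m H (2 * X) hm A) (extra_hit m H (2 * X) hm B))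
  rw [Nat.cast_le]
  apply card_le_card
  intro n hn
  rw [mem_filter] at hn ⊢
  refine ⟨hn.1, ?_⟩
  have b1 := rep_le A B (extra m H (2 * X) A) (extra m H (2 * X) B) n
  have b2 := extra_card m H (2 * X) A
  have b3 := extra_card m H (2 * X) B
  obtain ⟨q, hq⟩ : ∃ q : ℝ, q = X / (Real.log X) ^ (C + 1) := ⟨_, rfl⟩
  rw [← hq] at hA hB hn
  have hq1 : 1 ≤ q := by
    rw [hq, one_le_div (by positivity)]
    exact a3
  have hqL : X / (Real.log X) ^ C = q * Real.log X := by
    rw [hq, pow_succ]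
    field_simp
  rw [hqL]
  have c1 : (Pool.Agent.Lib.SG.rep (A ∪ ↑(extra m H (2 * X) A)) (B ∪ ↑(extra m H (2 * X) B)) (2 * n) : ℝ) ≤
      reps A B n + (1 + H * missed m H (2 * X) A + H * missed m H (2 * X) B) := by
    have : Pool.Agent.Lib.SG.rep (A ∪ ↑(extra m H (2 * X) A)) (B ∪ ↑(extra m H (2 * X) B)) (2 * n) ≤
      reps A B n + (1 + H * missed m H (2 * X) A + H * missed m H (2 * X) B) := by omega
    exact_mod_cast this
  refine lt_of_le_of_lt c1 ?_
  have c2 : (H : ℝ) * missed m H (2 * X) A ≤ H * q := mul_le_mul_of_nonneg_left hA hH0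
  have c3 : (H : ℝ) * missed m H (2 * X) B ≤ H * q := mul_le_mul_of_nonneg_left hB hH0
  have c4 : q * (2 * H + 3) ≤ q * Real.log X := mul_le_mul_of_nonneg_left a2 (by linarith)
  have c5 := hn.2
  nlinarith

private theorem pi_eq (x : ℕ) : Nat.primeCounting x = ((range (x + 1)).filter Nat.Prime).card := by
  rw [Nat.primeCounting, Nat.primeCounting', Nat.count_eq_card_filter_range]

private theorem pi_le (x : ℕ) : Nat.primeCounting x ≤ x := by
  rw [pi_eq]
  calc ((range (x + 1)).filter Nat.Prime).card ≤ (Ioc 0 x).card := by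
        apply card_le_card
        intro p hp
        rw [mem_filter, mem_range] at hp
        rw [mem_Ioc]
        exact ⟨hp.2.pos, by omega⟩
    _ = x := by simp

private theorem pi_window (x H : ℕ) :
    Nat.primeCounting (x + H) = Nat.primeCounting x + ((Ioc x (x + H)).filter Nat.Prime).card := by
  rw [pi_eq, pi_eq, ← card_union_of_disjoint]
  · congr 1
    ext p
    rw [mem_union, mem_filter, mem_filter, mem_filter, mem_range, mem_range, mem_Ioc]
    constructor
    · rintro ⟨h1, h2⟩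
      by_cases h3 : p < x + 1
      · exact Or.inl ⟨h3, h2⟩
      · exact Or.inr ⟨⟨by omega, by omega⟩, h2⟩
    · rintro (⟨h1, h2⟩ | ⟨h1, h2⟩)
      · exact ⟨by omega, h2⟩
      · exact ⟨by omega, h2⟩
  · rw [disjoint_left]
    intro p hp hq
    rw [mem_filter, mem_range] at hp
    rw [mem_filter, mem_Ioc] at hq
    omega

private theorem nth_window (x H j : ℕ) (h1 : Nat.primeCounting x ≤ j)
    (h2 : j + 1 ≤ Nat.primeCounting (x + H)) :
    x < Nat.nth Nat.Prime j ∧ Nat.nth Nat.Prime j ≤ x + H ∧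
      Nat.primeCounting (Nat.nth Nat.Prime j) = j + 1 := by
  have hpi : Nat.primeCounting (Nat.nth Nat.Prime j) = j + 1 := by
    unfold Nat.primeCounting Nat.primeCounting'
    exact Nat.count_nth_succ_of_infinite Nat.infinite_setOfPred_prime j
  refine ⟨?_, ?_, hpi⟩
  · by_contra hcon
    have := Nat.monotone_primeCounting (not_lt.mp hcon)
    omega
  · have h3 : j < Nat.count Nat.Prime (x + H + 1) := by
      have h4 : Nat.primeCounting (x + H) = Nat.count Nat.Prime (x + H + 1) := rfl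
      omega
    exact Nat.lt_succ_iff.mp (Nat.nth_lt_of_lt_count h3)

/-- the windows missed by the primes with indices in `S` come from the gaps of `S` -/
private theorem missed_le (m H Y : ℕ) (hm : 1 ≤ m) (S : Set ℕ) :
    missed m H Y (indexed S) ≤ H * gaps m Y S := by
  classical
  obtain ⟨M, hM⟩ : ∃ M : Finset ℕ, M = (range (Y + 1)).filter
    (fun x => m ≤ ((Ioc x (x + H)).filter Nat.Prime).card ∧
      ∀ p ∈ Ioc x (x + H), p.Prime → p ∉ indexed S) := ⟨_, rfl⟩
  obtain ⟨G, hG⟩ : ∃ G : Finset ℕ, G = (range (Y + 1)).filter (fun n => ∀ b ∈ Ioc n (n + m), b ∉ S) :=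
    ⟨_, rfl⟩
  have e1 : missed m H Y (indexed S) = M.card := by
    rw [hM]
    unfold missed
    congr
  have e2 : gaps m Y S = G.card := by
    rw [hG]
    unfold gaps
    congr
  rw [e1, e2]
  have h1 : M.image Nat.primeCounting ⊆ G := by
    intro j hj
    rw [mem_image] at hj
    obtain ⟨x, hx, rfl⟩ := hj
    rw [hM, mem_filter, mem_range] at hx
    obtain ⟨hx1, hx2, hx3⟩ := hx
    rw [hG, mem_filter, mem_range]
    have hpx := pi_le x
    refine ⟨by omega, fun b hb hbS => ?_⟩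
    rw [mem_Ioc] at hb
    have hw := pi_window x H
    obtain ⟨j, rfl⟩ : ∃ j, b = j + 1 := ⟨b - 1, by omega⟩
    obtain ⟨n1, n2, n3⟩ := nth_window x H j (by omega) (by omega)
    exact hx3 _ (mem_Ioc.2 ⟨n1, n2⟩) (Nat.prime_nth_prime j)
      ⟨Nat.prime_nth_prime j, by rw [n3]; exact hbS⟩
  have h2 : ∀ j ∈ M.image Nat.primeCounting, (M.filter (fun x => Nat.primeCounting x = j)).card ≤ H := by
    intro j _
    have h3 : M.filter (fun x => Nat.primeCounting x = j) ⊆
        Ico (Nat.nth Nat.Prime j - H) (Nat.nth Nat.Prime j) := by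
      intro x hx
      rw [mem_filter] at hx
      obtain ⟨hx0, hxj⟩ := hx
      rw [hM, mem_filter, mem_range] at hx0
      have hw := pi_window x H
      obtain ⟨n1, n2, -⟩ := nth_window x H j (by omega) (by omega)
      rw [mem_Ico]
      omega
    refine (card_le_card h3).trans ?_
    rw [Nat.card_Ico]
    omega
  have h4 := card_le_mul_card_image M H h2
  exact h4.trans (Nat.mul_le_mul_left H (card_le_card h1))

open Classical in
private theorem part2 (m : ℕ) (hm : 1 ≤ m) (D : ℕ) : ∃ C X₀ : ℕ, ∀ X : ℕ, X₀ ≤ X →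
    ∀ S T : Set ℕ, (gaps m (2 * X) S : ℝ) ≤ X / (Real.log X) ^ C →
    (gaps m (2 * X) T : ℝ) ≤ X / (Real.log X) ^ C →
    (((Icc 1 X).filter (fun n => (reps (indexed S) (indexed T) n : ℝ) < X / (Real.log X) ^ C)).card : ℝ) ≤
      X / (Real.log X) ^ D := by
  obtain ⟨H, h0⟩ := part1 m hm
  obtain ⟨C, X₁, h⟩ := h0 D
  obtain ⟨X₂, h2⟩ := log_ev (H + 1)
  refine ⟨C + 1, max X₁ X₂, fun X hX S T hS hT => ?_⟩
  rw [max_le_iff] at hX
  have a2 := h2 X hX.2
  have hH0 : (0 : ℝ) ≤ H := Nat.cast_nonneg H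
  have hlog : 0 < Real.log X := by linarith
  have hXR : (0 : ℝ) ≤ X := Nat.cast_nonneg X
  have hq : ∀ R : Set ℕ, (gaps m (2 * X) R : ℝ) ≤ X / (Real.log X) ^ (C + 1) →
      (missed m H (2 * X) (indexed R) : ℝ) ≤ X / (Real.log X) ^ C := by
    intro R hR
    calc (missed m H (2 * X) (indexed R) : ℝ) ≤ H * gaps m (2 * X) R := by
          exact_mod_cast missed_le m H (2 * X) hm R
      _ ≤ H * (X / (Real.log X) ^ (C + 1)) := mul_le_mul_of_nonneg_left hR hH0
      _ ≤ Real.log X * (X / (Real.log X) ^ (C + 1)) := by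
          apply mul_le_mul_of_nonneg_right (by linarith) (by positivity)
      _ = X / (Real.log X) ^ C := by
          rw [pow_succ]
          field_simp
  refine le_trans ?_ (h X hX.1 (indexed S) (indexed T) (hq S hS) (hq T hT))
  rw [Nat.cast_le]
  apply card_le_card
  intro n hn
  rw [mem_filter] at hn ⊢
  refine ⟨hn.1, lt_of_lt_of_le hn.2 ?_⟩
  apply div_le_div_of_nonneg_left hXR (by positivity)
  exact pow_le_pow_right₀ (by linarith) (Nat.le_succ C)

private theorem rough_meets (z n : ℕ) : ∃ b, Rough z b ∧ n < b ∧ b ≤ n + primorial z := by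
  have hP := primorial_pos z
  refine ⟨primorial z * (n / primorial z) + 1 + (if n % primorial z = 0 then 0 else primorial z),
    ?_, ?_, ?_⟩
  · intro q hq hd
    by_contra hc
    rw [not_lt] at hc
    have h1 : q ∣ primorial z := (hq.dvd_primorial_iff).mpr hc
    have h2 : q ∣ 1 := by
      have h3 : q ∣ primorial z * (n / primorial z) := Dvd.dvd.mul_right h1 _
      split_ifs at hd
      · rw [add_zero] at hd
        exact (Nat.dvd_add_right h3).mp hd
      · rw [Nat.dvd_add_left h1] at hd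
        exact (Nat.dvd_add_right h3).mp hd
    exact hq.one_lt.ne' (Nat.dvd_one.mp h2)
  · have h1 := Nat.div_add_mod n (primorial z)
    have h2 := Nat.mod_lt n hP
    split_ifs with h
    · omega
    · omega
  · have h1 := Nat.div_add_mod n (primorial z)
    split_ifs with h
    · omega
    · omega

private theorem rough_gaps (z Y : ℕ) : gaps (primorial z) Y {b | Rough z b} = 0 := by
  unfold gaps
  rw [card_eq_zero]
  ext n
  constructor
  · intro hn
    have hn2 := ((@Finset.mem_filter _ _ (_) _ _).mp hn).2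
    obtain ⟨b, b1, b2, b3⟩ := rough_meets z n
    exact absurd b1 (hn2 b (mem_Ioc.2 ⟨b2, b3⟩))
  · intro hn
    exact absurd hn (notMem_empty n)

/-- few `n` have no representation with both indices `z`-rough -/
private theorem thr (j : ℕ) : ∃ T : ℕ, ∀ X : ℕ, T ≤ X → 1 ≤ Real.log X ∧
    (((Icc 1 X).filter (fun n => reps (indexed {b | Rough j b}) (indexed {b | Rough j b}) n = 0)).card : ℝ) ≤
      X / (Real.log X) ^ j := by
  classical
  obtain ⟨C, X₀, h⟩ := part2 (primorial j) (primorial_pos j) j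
  obtain ⟨X₁, h1⟩ := log_ev 1
  refine ⟨max X₀ (max X₁ 1), fun X hX => ?_⟩
  simp only [max_le_iff] at hX
  obtain ⟨hX0, hX1, hX3⟩ := hX
  have a1 := h1 X hX1
  have hXR : (1 : ℝ) ≤ X := by exact_mod_cast hX3
  have hq : 0 < X / (Real.log X) ^ C := by positivity
  have hg : (gaps (primorial j) (2 * X) {b | Rough j b} : ℝ) ≤ X / (Real.log X) ^ C := by
    rw [rough_gaps, Nat.cast_zero]
    exact hq.le
  refine ⟨a1, le_trans ?_ (h X hX0 {b | Rough j b} {b | Rough j b} hg hg)⟩
  rw [Nat.cast_le]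
  apply card_le_card
  intro n hn
  rw [mem_filter] at hn
  refine (@Finset.mem_filter _ _ (_) _ _).mpr ⟨hn.1, ?_⟩
  rw [hn.2, Nat.cast_zero]
  exact hq

open Classical in
/-- Goldbach for almost all even numbers, with sets of primes which meet almost all clusters; with conditions on
both indices -/
theorem result :
    (∀ m : ℕ, 1 ≤ m → ∃ H : ℕ, ∀ D : ℕ, ∃ C X₀ : ℕ, ∀ X : ℕ, X₀ ≤ X → ∀ A B : Set ℕ,
      (missed m H (2 * X) A : ℝ) ≤ X / (Real.log X) ^ C →
      (missed m H (2 * X) B : ℝ) ≤ X / (Real.log X) ^ C →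
      (((Icc 1 X).filter (fun n => (reps A B n : ℝ) < X / (Real.log X) ^ C)).card : ℝ) ≤
        X / (Real.log X) ^ D) ∧
    (∀ m : ℕ, 1 ≤ m → ∀ D : ℕ, ∃ C X₀ : ℕ, ∀ X : ℕ, X₀ ≤ X → ∀ S T : Set ℕ,
      (gaps m (2 * X) S : ℝ) ≤ X / (Real.log X) ^ C →
      (gaps m (2 * X) T : ℝ) ≤ X / (Real.log X) ^ C →
      (((Icc 1 X).filter (fun n => (reps (indexed S) (indexed T) n : ℝ) < X / (Real.log X) ^ C)).card : ℝ) ≤
        X / (Real.log X) ^ D) ∧
    (∃ z : ℕ → ℕ, Filter.Tendsto z Filter.atTop Filter.atTop ∧ ∀ D : ℕ, ∃ X₀ : ℕ, ∀ X : ℕ,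
      X₀ ≤ X → (((Icc 1 X).filter (fun n => ¬ ∃ p q : ℕ, p.Prime ∧ q.Prime ∧ p ≠ q ∧ p + q = 2 * n ∧
        Rough (z n) (Nat.primeCounting p) ∧ Rough (z n) (Nat.primeCounting q))).card : ℝ) ≤
        X / (Real.log X) ^ D) := by
  refine ⟨part1, part2, ?_⟩
  choose T hT using thr
  obtain ⟨U, hU⟩ : ∃ U : ℕ → ℕ, U = fun j => j + ∑ i ∈ range (j + 1), T i := ⟨_, rfl⟩
  have hU1 : ∀ j, j ≤ U j := fun j => by
    rw [hU]
    exact Nat.le_add_right _ _
  have hU2 : ∀ j, T j ≤ U j := fun j => by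
    rw [hU]
    have : T j ≤ ∑ i ∈ range (j + 1), T i :=
      single_le_sum (f := T) (fun _ _ => Nat.zero_le _) (mem_range.mpr (Nat.lt_succ_self j))
    exact this.trans (Nat.le_add_left _ _)
  -- z n is the largest j with U j ≤ n
  obtain ⟨z, hz⟩ : ∃ z : ℕ → ℕ, z = fun n => Nat.findGreatest (fun j => U j ≤ n) n := ⟨_, rfl⟩
  have hz1 : ∀ n j, U j ≤ n → j ≤ z n := by
    intro n j hj
    rw [hz]
    exact Nat.le_findGreatest ((hU1 j).trans hj) hj
  have hz2 : ∀ n, U 0 ≤ n → U (z n) ≤ n := by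
    intro n hn
    rw [hz]
    exact Nat.findGreatest_spec (P := fun j => U j ≤ n) (Nat.zero_le n) hn
  have hz3 : ∀ a b, a ≤ b → z a ≤ z b := by
    intro a b hab
    rw [hz]
    exact Nat.findGreatest_mono (fun j hj => le_trans hj hab) hab
  refine ⟨z, ?_, fun D => ?_⟩
  · rw [Filter.tendsto_atTop_atTop]
    intro j
    exact ⟨U j, fun n hn => hz1 n j hn⟩
  · refine ⟨max (U D) (U 0), fun X hX => ?_⟩
    rw [max_le_iff] at hX
    have hj : D ≤ z X := hz1 X D hX.1
    obtain ⟨hlog, h3⟩ := hT (z X) X ((hU2 _).trans (hz2 X hX.2))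
    have hXR : (0 : ℝ) ≤ X := Nat.cast_nonneg X
    have h6 : (X : ℝ) / (Real.log X) ^ (z X) ≤ X / (Real.log X) ^ D := by
      apply div_le_div_of_nonneg_left hXR (by positivity)
      exact pow_le_pow_right₀ hlog hj
    refine le_trans ?_ (h3.trans h6)
    rw [Nat.cast_le]
    apply card_le_card
    intro n hn
    have hn' := (@Finset.mem_filter _ _ (_) _ _).mp hn
    refine (@Finset.mem_filter _ _ (_) _ _).mpr ⟨hn'.1, ?_⟩
    by_contra hc
    have h7 : 0 < reps (indexed {b | Rough (z X) b}) (indexed {b | Rough (z X) b}) n := Nat.pos_of_ne_zero hc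
    rw [repSet_card] at h7
    obtain ⟨p, hp⟩ := card_pos.mp h7
    rw [repSet_mem] at hp
    obtain ⟨p1, p2, p3, p4, p5, p6⟩ := hp
    have hzn : z n ≤ z X := hz3 n X (mem_Icc.mp hn'.1).2
    apply hn'.2
    exact ⟨p, 2 * n - p, p2, p3, by omega, by omega, fun q hq hd => lt_of_le_of_lt hzn (p5.2 q hq hd),
      fun q hq hd => lt_of_le_of_lt hzn (p6.2 q hq hd)⟩

end Pool.Agent.Results.MP_7b7e48_nt.ClusterGoldbach
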