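import Mathlib
import Pool.Agent.Lib.MP_61161c_nt.ThinScale
import Pool.Agent.Lib.MP_61161c_nt.Glue

/-!
# Both primes taken from thin sets of complementary sizes

Inside every relatively dense set `S` of primes there are sets `A` and `B` with `O(x ^ α)` and
`O(x ^ (1 - α))` elements up to `x` such that a positive proportion of the even numbers are of the
form `a + b` with `a ∈ A`, `b ∈ B` and `a < b`.
-/

open Finset Filter Pool.Agent.Lib.MP_61161c_nt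

namespace Pool.Agent.Results.MP_61161c_nt.ComplementaryThinSets

/-- Thin sets of primes of complementary sizes whose sumset contains a positive proportion of the
even numbers. -/
theorem result (α δ : ℝ) (hα0 : 0 < α) (hα1 : α < 1) (hδ : 0 < δ) :
    ∃ c C : ℝ, 0 < c ∧ 0 < C ∧
      ∀ S : Set ℕ, (∀ p ∈ S, p.Prime) →
        (∀ᶠ x : ℕ in Filter.atTop, δ * x / Real.log x ≤ ((S ∩ Set.Icc 1 x).ncard : ℝ)) →
        ∃ A B : Set ℕ, A ⊆ S ∧ B ⊆ S ∧
          (∀ x : ℕ, 1 ≤ x → ((A ∩ Set.Icc 1 x).ncard : ℝ) ≤ C * (x : ℝ) ^ α) ∧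
          (∀ x : ℕ, 1 ≤ x → ((B ∩ Set.Icc 1 x).ncard : ℝ) ≤ C * (x : ℝ) ^ (1 - α)) ∧
          ∀ᶠ X : ℕ in Filter.atTop, c * X ≤
            ({n : ℕ | 1 ≤ n ∧ n ≤ X ∧ ∃ a ∈ A, ∃ b ∈ B, a < b ∧ a + b = 2 * n}.ncard : ℝ) := by
  classical
  obtain ⟨c₁, C₁, hc₁, hC₁, D, hD2, hscale⟩ := thin_scale α δ hα0 hα1 hδ
  have hb1 : 1 < (2 : ℝ) ^ α := Real.one_lt_rpow (by norm_num) hα0
  have hb2 : 1 < (2 : ℝ) ^ (1 - α) := Real.one_lt_rpow (by norm_num) (by linarith)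
  have hDD : (0 : ℝ) < ((D * D : ℕ) : ℝ) := by
    have : 0 < D * D := by positivity
    exact_mod_cast this
  set Ca : ℝ := C₁ * ((2 : ℝ) ^ α / ((2 : ℝ) ^ α - 1)) * ((D * D : ℕ) : ℝ) ^ α with hCa
  set Cb : ℝ := C₁ * ((2 : ℝ) ^ (1 - α) / ((2 : ℝ) ^ (1 - α) - 1)) *
    ((D * D : ℕ) : ℝ) ^ (1 - α) with hCb
  have hCa0 : 0 < Ca := by
    have : 0 < (2 : ℝ) ^ α - 1 := by linarith
    positivity
  have hCb0 : 0 < Cb := by
    have : 0 < (2 : ℝ) ^ (1 - α) - 1 := by linarith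
    positivity
  refine ⟨c₁ / 2, max Ca Cb, by positivity, lt_max_of_lt_left hCa0, fun S hS hdens => ?_⟩
  obtain ⟨X0, hX0⟩ := hscale S hS hdens
  have hex : ∀ k : ℕ, ∃ A B : Finset ℕ, (∀ a ∈ A, a ∈ S ∧ 2 ^ k < D * D * a ∧ a ≤ 2 ^ k / D) ∧
      (∀ b ∈ B, b ∈ S ∧ 2 ^ k < D * D * b ∧ 2 ^ k / D < b) ∧
      (A.card : ℝ) ≤ C₁ * ((2 ^ k : ℕ) : ℝ) ^ α ∧
      (B.card : ℝ) ≤ C₁ * ((2 ^ k : ℕ) : ℝ) ^ (1 - α) ∧
      (X0 ≤ k → c₁ * ((2 ^ k : ℕ) : ℝ) ≤ (((Finset.Icc 1 (2 ^ k)).filter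
          (fun n => ∃ a ∈ A, a ≤ 2 * n ∧ 2 * n - a ∈ B)).card : ℝ)) := by
    intro k
    by_cases hk : X0 ≤ k
    · have h2k : X0 ≤ 2 ^ k := hk.trans (Nat.lt_two_pow_self).le
      obtain ⟨A, hA, B, hB, h1, h2, h3⟩ := hX0 (2 ^ k) h2k
      refine ⟨A, B, fun a ha => ?_, fun b hb => ?_, h1, h2, fun _ => h3⟩
      · have := hA ha
        rw [mem_piece] at this
        refine ⟨this.2, ?_, this.1.2⟩
        have h4 := this.1.1
        rw [Nat.div_div_eq_div_mul, Nat.div_lt_iff_lt_mul (by positivity)] at h4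
        rw [mul_comm]
        exact h4
      · have := hB hb
        rw [mem_piece] at this
        refine ⟨this.2, ?_, this.1.1⟩
        have h4 := this.1.1
        rw [Nat.div_lt_iff_lt_mul (by omega)] at h4
        calc 2 ^ k < b * D := h4
          _ ≤ b * D * D := Nat.le_mul_of_pos_right _ (by omega)
          _ = D * D * b := by ring
    · refine ⟨∅, ∅, by simp, by simp, ?_, ?_, fun h => absurd h hk⟩
      · simp only [Finset.card_empty, Nat.cast_zero]; positivity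
      · simp only [Finset.card_empty, Nat.cast_zero]; positivity
  choose A B hA hB hAc hBc hrep using hex
  refine ⟨⋃ k, (A k : Set ℕ), ⋃ k, (B k : Set ℕ), ?_, ?_, ?_, ?_, ?_⟩
  · refine Set.iUnion_subset fun k a ha => (hA k a ha).1
  · refine Set.iUnion_subset fun k b hb => (hB k b hb).1
  · intro x _
    refine (glue_count A (D * D) C₁ α hC₁.le hα0 (fun k a ha => (hA k a ha).2.1) hAc x).trans ?_
    gcongr
    exact le_max_left _ _
  · intro x _
    refine (glue_count B (D * D) C₁ (1 - α) hC₁.le (by linarith)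
      (fun k b hb => (hB k b hb).2.1) hBc x).trans ?_
    gcongr
    exact le_max_right _ _
  · filter_upwards [eventually_ge_atTop (2 ^ X0)] with X hX
    have hXpos : 0 < X := lt_of_lt_of_le (by positivity) hX
    set k := Nat.log 2 X with hk
    have hkX0 : X0 ≤ k := Nat.le_log_of_pow_le (by norm_num) hX
    have h1 : 2 ^ k ≤ X := Nat.pow_log_le_self 2 (by omega)
    have h2 : X < 2 ^ (k + 1) := Nat.lt_pow_succ_log_self (by norm_num) X
    have h3 := hrep k hkX0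
    have h4 : (X : ℝ) ≤ 2 * ((2 ^ k : ℕ) : ℝ) := by
      have : X ≤ 2 * 2 ^ k := by rw [pow_succ] at h2; omega
      exact_mod_cast this
    calc c₁ / 2 * (X : ℝ) ≤ c₁ / 2 * (2 * ((2 ^ k : ℕ) : ℝ)) := by gcongr
      _ = c₁ * ((2 ^ k : ℕ) : ℝ) := by ring
      _ ≤ (((Finset.Icc 1 (2 ^ k)).filter
          (fun n => ∃ a ∈ A k, a ≤ 2 * n ∧ 2 * n - a ∈ B k)).card : ℝ) := h3
      _ ≤ _ := by
        rw [← Set.ncard_coe_finset]
        have hfin : ({n : ℕ | 1 ≤ n ∧ n ≤ X ∧ ∃ a ∈ ⋃ k, (A k : Set ℕ),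
            ∃ b ∈ ⋃ k, (B k : Set ℕ), a < b ∧ a + b = 2 * n}).Finite :=
          (Set.finite_Icc 1 X).subset fun n hn => ⟨hn.1, hn.2.1⟩
        have : ((((Finset.Icc 1 (2 ^ k)).filter
          (fun n => ∃ a ∈ A k, a ≤ 2 * n ∧ 2 * n - a ∈ B k)) : Finset ℕ) : Set ℕ).ncard ≤
            ({n : ℕ | 1 ≤ n ∧ n ≤ X ∧ ∃ a ∈ ⋃ k, (A k : Set ℕ),
            ∃ b ∈ ⋃ k, (B k : Set ℕ), a < b ∧ a + b = 2 * n}).ncard := by
          refine Set.ncard_le_ncard ?_ hfin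
          intro n hn
          rw [Finset.mem_coe, Finset.mem_filter, Finset.mem_Icc] at hn
          obtain ⟨⟨hn1, hn2⟩, a, ha, han, hb⟩ := hn
          refine ⟨hn1, hn2.trans h1, a, Set.mem_iUnion.mpr ⟨k, ha⟩, 2 * n - a,
            Set.mem_iUnion.mpr ⟨k, hb⟩, ?_, by omega⟩
          have h5 := (hA k a ha).2.2
          have h6 := (hB k _ hb).2.2
          omega
        exact_mod_cast this

end Pool.Agent.Results.MP_61161c_nt.ComplementaryThinSets
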