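import Mathlib
import Pool.Agent.Lib.MP_7b7e48_nt.FewSmallPrimes

/-!
# Few small summands cannot serve all even numbers

A set `Q` of positive integers `q ≤ log X (log₂ X)^B` with at most
`c log X log₂ X log₄ X / (log₃ X)^2` elements leaves at least `X^{1-ε}` of the `n ≤ X`
without a representation `2n = q + p`, `q ∈ Q`, `p` prime.
-/

namespace Pool.Agent.Lib.MP_7b7e48_nt.Shelf.FewSmallSummands

/-- Lower bound for the number of small summands needed in Goldbach's problem. -/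
theorem result (B : ℕ) (ε : ℝ) (hε : 0 < ε) :
    ∃ c : ℝ, 0 < c ∧ ∃ X₀ : ℕ, ∀ X : ℕ, X₀ ≤ X →
    ∀ Q : Finset ℕ, (∀ q ∈ Q, 1 ≤ q ∧ (q : ℝ) ≤ Real.log X * (Real.log (Real.log X)) ^ B) →
      (Q.card : ℝ) ≤ c * Real.log X * Real.log (Real.log X) *
        Real.log (Real.log (Real.log (Real.log X))) / (Real.log (Real.log (Real.log X))) ^ 2 →
      (X : ℝ) ^ (1 - ε) ≤
        (((Finset.Icc 1 X).filter (fun n => ∀ q ∈ Q, ¬ (2 * n - q).Prime)).card : ℝ) :=
  Pool.Agent.Lib.MP_7b7e48_nt.FewSmallPrimes.main B ε hε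

end Pool.Agent.Lib.MP_7b7e48_nt.Shelf.FewSmallSummands
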