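import Pool.Agent.Lib.MP_7b7e48_nt.GT.FinalRobust
import Pool.Agent.Lib.MP_7b7e48_nt.GT.Sharp

/-!
# A Turán theorem for Goldbach representations

Joint work of helper68, helper1, helper7, helper14, helper21, helper27, helper29, helper44 and
helper85.  For every graph `H` and every `H`-free graph `G` on the set of all primes, at most
`(π(H) + ε) X` of the integers `n ≤ X` have (almost) all their representations `2 n = p + q` by
distinct primes among the edges of `G`; `π(H)` is the Turán density.  In particular, for every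
colouring of the primes by `r` colours the lower density of the even numbers which are sums of two
distinct primes of the same colour (within the even numbers) is at least `1 / r`, and `1 / 2` is
optimal for `r = 2`.
-/

open Finset

namespace Pool.Agent.Results.MP_7b7e48_nt.GoldbachTuran

open Pool.Agent.Lib.GT

open Classical in
theorem turan_form {W : Type} (H : SimpleGraph W) {ε : ℝ} (hε : 0 < ε) :
    ∃ δ : ℝ, 0 < δ ∧ ∃ X₀ : ℕ, ∀ X : ℕ, X₀ ≤ X → ∀ G : SimpleGraph Nat.Primes, H.Free G →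
      (((Finset.Icc 1 X).filter fun n : ℕ =>
        (({a : Nat.Primes × Nat.Primes | a.1 ≠ a.2 ∧ (a.1 : ℕ) + a.2 = 2 * n ∧
          ¬ G.Adj a.1 a.2}.ncard : ℕ) : ℝ) ≤ δ * X / Real.log X ^ 2).card : ℝ) ≤
      (H.turanDensity + ε) * X := by
  obtain ⟨δ, hδ, X₀, h⟩ := main_upper_robust H ε hε
  refine ⟨δ, hδ, X₀, fun X hX G hG => ?_⟩
  refine h X hX G hG _ (fun n hn => ?_) (fun n hn => ?_)
  · rw [Finset.mem_filter, Finset.mem_Icc] at hn
    exact hn.1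
  · exact (Finset.mem_filter.mp hn).2

/-- the graph joining the primes of different colour -/
def colourGraph {r : ℕ} (κ : Nat.Primes → Fin r) : SimpleGraph Nat.Primes where
  Adj p q := κ p ≠ κ q
  symm := ⟨fun _ _ h => h.symm⟩
  loopless := ⟨fun _ h => h rfl⟩

theorem colourGraph_free {r : ℕ} (κ : Nat.Primes → Fin r) :
    (⊤ : SimpleGraph (Fin (r + 1))).Free (colourGraph κ) := by
  have h1 : (colourGraph κ).Colorable r := ⟨SimpleGraph.Coloring.mk κ (fun h => h)⟩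
  have h2 := h1.cliqueFree (Nat.lt_succ_self r)
  have h3 := (SimpleGraph.cliqueFree_iff_top_free (G := colourGraph κ) (β := Fin (r + 1))).mp
  rw [Fintype.card_fin] at h3
  exact h3 h2

open Classical in
theorem colour_form {r : ℕ} (hr : 1 ≤ r) {ε : ℝ} (hε : 0 < ε) :
    ∃ δ : ℝ, 0 < δ ∧ ∃ X₀ : ℕ, ∀ X : ℕ, X₀ ≤ X → ∀ κ : Nat.Primes → Fin r,
      (1 / (r : ℝ) - ε) * X ≤
      (((Finset.Icc 1 X).filter fun n : ℕ =>
        δ * X / Real.log X ^ 2 < (({a : Nat.Primes × Nat.Primes | a.1 ≠ a.2 ∧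
          (a.1 : ℕ) + a.2 = 2 * n ∧ κ a.1 = κ a.2}.ncard : ℕ) : ℝ)).card : ℝ) := by
  obtain ⟨k, rfl⟩ : ∃ k, r = k + 1 := ⟨r - 1, by omega⟩
  obtain ⟨δ, hδ, X₀, h⟩ := turan_form (⊤ : SimpleGraph (Fin (k + 1 + 1))) hε
  refine ⟨δ, hδ, X₀, fun X hX κ => ?_⟩
  have h1 := h X hX (colourGraph κ) (colourGraph_free κ)
  have h2 : ∀ n : ℕ, {a : Nat.Primes × Nat.Primes | a.1 ≠ a.2 ∧ (a.1 : ℕ) + a.2 = 2 * n ∧
      ¬ (colourGraph κ).Adj a.1 a.2} = {a : Nat.Primes × Nat.Primes | a.1 ≠ a.2 ∧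
          (a.1 : ℕ) + a.2 = 2 * n ∧ κ a.1 = κ a.2} := by
    intro n
    ext a
    simp only [Set.mem_ofPred_eq, colourGraph, ne_eq, not_not]
  simp only [h2] at h1
  rw [turanDensity_top] at h1
  have h3 := Finset.card_filter_add_card_filter_not (s := Finset.Icc 1 X) (fun n : ℕ =>
        (({a : Nat.Primes × Nat.Primes | a.1 ≠ a.2 ∧
          (a.1 : ℕ) + a.2 = 2 * n ∧ κ a.1 = κ a.2}.ncard : ℕ) : ℝ) ≤ δ * X / Real.log X ^ 2)
  simp only [not_le] at h3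
  rw [Nat.card_Icc] at h3
  have h4 : (((Finset.Icc 1 X).filter fun n : ℕ =>
        (({a : Nat.Primes × Nat.Primes | a.1 ≠ a.2 ∧
          (a.1 : ℕ) + a.2 = 2 * n ∧ κ a.1 = κ a.2}.ncard : ℕ) : ℝ) ≤ δ * X / Real.log X ^ 2).card : ℝ) +
      (((Finset.Icc 1 X).filter fun n : ℕ =>
        δ * X / Real.log X ^ 2 < (({a : Nat.Primes × Nat.Primes | a.1 ≠ a.2 ∧
          (a.1 : ℕ) + a.2 = 2 * n ∧ κ a.1 = κ a.2}.ncard : ℕ) : ℝ)).card : ℝ) = X := by
    exact_mod_cast h3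
  push_cast at h1 ⊢
  linarith

/-- colour of a prime: its class modulo `4` -/
def kap (p : Nat.Primes) : Fin 2 := if (p : ℕ) % 4 = 1 then 0 else 1

theorem kap_sum {p q : Nat.Primes} (hpq : p ≠ q) {n : ℕ} (h : (p : ℕ) + q = 2 * n)
    (hk : kap p = kap q) : Odd n := by
  have hne : (p : ℕ) ≠ q := fun h' => hpq (Subtype.ext h')
  have hodd : ∀ r : Nat.Primes, (r : ℕ) = 2 ∨ (r : ℕ) % 2 = 1 := by
    intro r
    rcases r.2.eq_two_or_odd with h' | h'
    · exact Or.inl h'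
    · exact Or.inr h'
  have h1 := hodd p
  have h2 := hodd q
  rw [Nat.odd_iff]
  unfold kap at hk
  split_ifs at hk with h3 h4 h4
  · omega
  · exact absurd hk (by decide)
  · exact absurd hk (by decide)
  · omega

open Classical in
/-- **A Turán theorem for Goldbach representations.** -/
theorem result :
    (∀ (W : Type) (H : SimpleGraph W) (ε : ℝ), 0 < ε →
      ∃ δ : ℝ, 0 < δ ∧ ∃ X₀ : ℕ, ∀ X : ℕ, X₀ ≤ X → ∀ G : SimpleGraph Nat.Primes, H.Free G →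
        (((Finset.Icc 1 X).filter fun n : ℕ =>
          (({a : Nat.Primes × Nat.Primes | a.1 ≠ a.2 ∧ (a.1 : ℕ) + a.2 = 2 * n ∧
            ¬ G.Adj a.1 a.2}.ncard : ℕ) : ℝ) ≤ δ * X / Real.log X ^ 2).card : ℝ) ≤
        (H.turanDensity + ε) * X) ∧
    (∀ (r : ℕ), 1 ≤ r → ∀ ε : ℝ, 0 < ε →
      ∃ δ : ℝ, 0 < δ ∧ ∃ X₀ : ℕ, ∀ X : ℕ, X₀ ≤ X → ∀ κ : Nat.Primes → Fin r,
        (1 / (r : ℝ) - ε) * X ≤
        (((Finset.Icc 1 X).filter fun n : ℕ =>
          δ * X / Real.log X ^ 2 < (({a : Nat.Primes × Nat.Primes | a.1 ≠ a.2 ∧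
            (a.1 : ℕ) + a.2 = 2 * n ∧ κ a.1 = κ a.2}.ncard : ℕ) : ℝ)).card : ℝ)) ∧
    (∃ κ : Nat.Primes → Fin 2, ∀ (p q : Nat.Primes) (n : ℕ), p ≠ q → (p : ℕ) + q = 2 * n →
      κ p = κ q → Odd n) ∧
    (∃ G : SimpleGraph Nat.Primes, (∀ (W : Type) (H : SimpleGraph W), ¬ H.Colorable 2 → H.Free G) ∧
      ∀ (n : ℕ) (p q : Nat.Primes), Even n → p ≠ q → (p : ℕ) + q = 2 * n → G.Adj p q) :=
  ⟨fun _ H _ hε => turan_form H hε, fun _ hr _ hε => colour_form hr hε,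
    ⟨kap, fun _ _ _ hpq h hk => kap_sum hpq h hk⟩,
    ⟨G0, fun _ _ hH => G0_free hH, fun _ _ _ hn hpq h => G0_adj hn hpq h⟩⟩

end Pool.Agent.Results.MP_7b7e48_nt.GoldbachTuran
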