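import Pool.Agent.Lib.MP_7b7e48_nt.LG.H3

/-!
# Goldbach's problem for integers with an odd number of prime factors

For `i, j` in `{0, 1}` let `reps N i j` be the set of the `0 < a < N` with `a ≠ N - a` such that `Ω a ≡ i` and
`Ω (N - a) ≡ j` modulo `2`, where `Ω` is the number of prime factors, counted with multiplicity.

The number of elements of `reps N i j` tends to infinity with `N`, for all four choices of `i, j`; and it is at
least `p ^ (1 - ε)` for every large prime factor `p` of `N`. In particular, every sufficiently large integer `N` is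
the sum of two different positive integers which both have an odd number of prime factors; and of two different
positive integers which both have an even number of prime factors.
-/

open Pool.Agent.Lib.MP_7b7e48_nt.LG
open Pool.Agent.Lib.MP_45349e_nt.LS (lam)

namespace Pool.Agent.Results.MP_7b7e48_nt.LiouvilleGoldbach

/-- the `0 < a < N` with `a ≠ N - a` such that the numbers of prime factors of `a` and of `N - a` (with
multiplicity) are congruent to `i` and to `j` modulo `2` -/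
def reps (N i j : ℕ) : Finset ℕ :=
  (Finset.Ioo 0 N).filter fun a => a ≠ N - a ∧
    ArithmeticFunction.cardFactors a % 2 = i ∧ ArithmeticFunction.cardFactors (N - a) % 2 = j

theorem lam_iff (n i : ℕ) (hi : i < 2) :
    ArithmeticFunction.cardFactors n % 2 = i ↔ lam n = (-1 : ℝ) ^ i := by
  unfold Pool.Agent.Lib.MP_45349e_nt.LS.lam
  rw [neg_one_pow_eq_pow_mod_two]
  have h : ArithmeticFunction.cardFactors n % 2 < 2 := Nat.mod_lt _ (by norm_num)
  interval_cases i <;> interval_cases hm : ArithmeticFunction.cardFactors n % 2 <;> norm_num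

theorem reps_card (N i j : ℕ) (hi : i < 2) (hj : j < 2) :
    (ES2 N ((-1 : ℝ) ^ i) ((-1 : ℝ) ^ j)).card ≤ (reps N i j).card + 1 := by
  have h : ES2 N ((-1 : ℝ) ^ i) ((-1 : ℝ) ^ j) ⊆ insert (N / 2) (reps N i j) := by
    intro a ha
    rw [ES2_mem] at ha
    obtain ⟨h1, h2, h3, h4⟩ := ha
    rw [Finset.mem_insert]
    by_cases h5 : a = N - a
    · left
      omega
    · right
      unfold reps
      rw [Finset.mem_filter, Finset.mem_Ioo, lam_iff a i hi, lam_iff (N - a) j hj]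
      exact ⟨⟨h2, h1⟩, h5, h3, h4⟩
  exact (Finset.card_le_card h).trans (Finset.card_insert_le _ _)

theorem result : ∀ ε : ℝ, 0 < ε → ∀ R : ℕ, ∃ N₀ : ℕ, ∀ N : ℕ, N₀ ≤ N →
    ∀ i j : ℕ, i < 2 → j < 2 →
      R ≤ (reps N i j).card ∧
      ∀ p : ℕ, p.Prime → N₀ ≤ p → p ∣ N → (p : ℝ) ^ (1 - ε) ≤ ((reps N i j).card : ℝ) := by
  have hpm : ∀ i : ℕ, (-1 : ℝ) ^ i = 1 ∨ (-1 : ℝ) ^ i = -1 := fun i => neg_one_pow_eq_or ℝ i
  intro ε hε R
  obtain ⟨N₁, h₁⟩ := H3a (R + 1)
  obtain ⟨N₂, h₂⟩ := H3b (ε / 2) (by linarith)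
  -- `p ^ (1 - ε) + 1 ≤ p ^ (1 - ε / 2)` or `p ^ (1 - ε) ≤ 1`
  obtain ⟨N₃, h₃⟩ : ∃ N₃ : ℕ, ∀ p : ℕ, N₃ ≤ p → (2 : ℝ) ≤ (p : ℝ) ^ (ε / 2) := by
    have h := (tendsto_rpow_atTop (half_pos hε)).comp
      (tendsto_natCast_atTop_atTop (R := ℝ))
    obtain ⟨N₃, h₃⟩ := Filter.eventually_atTop.mp (h.eventually_ge_atTop 2)
    exact ⟨N₃, h₃⟩
  refine ⟨max (max N₁ N₂) (max N₃ 1), fun N hN i j hi hj => ?_⟩
  have hN₁ : N₁ ≤ N := (le_max_left _ _).trans ((le_max_left _ _).trans hN)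
  have hN1 : 1 ≤ N := (le_max_right _ _).trans ((le_max_right _ _).trans hN)
  have hc := reps_card N i j hi hj
  have ha := h₁ N hN₁ _ _ (hpm i) (hpm j)
  refine ⟨by omega, fun p hp hpN hdv => ?_⟩
  have hN₂ : N₂ ≤ p := (le_max_right _ _).trans ((le_max_left _ _).trans hpN)
  have hN₃ : N₃ ≤ p := (le_max_left _ _).trans ((le_max_right _ _).trans hpN)
  obtain ⟨m, rfl⟩ := hdv
  have hm : 0 < m := Nat.pos_of_mul_pos_left hN1
  have hb := h₂ p m hN₂ hp hm _ _ (hpm i) (hpm j)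
  have hc' : ((ES2 (p * m) ((-1 : ℝ) ^ i) ((-1 : ℝ) ^ j)).card : ℝ) ≤
      (reps (p * m) i j).card + 1 := by exact_mod_cast hc
  have hp1 : (1 : ℝ) ≤ p := by exact_mod_cast hp.one_lt.le
  have hp0 : (0 : ℝ) < p := by linarith
  have he : (p : ℝ) ^ (1 - ε / 2) = (p : ℝ) ^ (1 - ε) * (p : ℝ) ^ (ε / 2) := by
    rw [← Real.rpow_add hp0]
    congr 1
    ring
  have h4 := h₃ p hN₃
  have hx : 0 < (p : ℝ) ^ (1 - ε) := Real.rpow_pos_of_pos hp0 _
  rcases le_or_gt 1 ((p : ℝ) ^ (1 - ε)) with h5 | h5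
  · rw [he] at hb
    nlinarith
  · have h6 : 1 ≤ (reps (p * m) i j).card := by omega
    have h7 : (1 : ℝ) ≤ ((reps (p * m) i j).card : ℝ) := by exact_mod_cast h6
    linarith

end Pool.Agent.Results.MP_7b7e48_nt.LiouvilleGoldbach
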