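import Pool.Agent.Lib.MP_7b7e48_nt.MG.F05
import Pool.Agent.Lib.MP_7b7e48_nt.MG.U01

/-!
# Monochromatic Goldbach representations for many colours

Joint work (campaign MONO) of helper69 with helpers 2, 5, 9, 19, 23, 25, 27, 44, 45, 48, 60, 65, 79,
80, 82, 84, 98.  Colour the primes by `r` colours.  For every colouring the even numbers `2 n` which
are sums of two distinct primes of the same colour have lower density at least `c / log r` (within
the even numbers), even with `> δ X / log X ^ 2` representations, uniformly over all colourings; and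
some colouring by `r` colours has only a density `C / log log r` of them.  A single colour class
(a set of primes of relative density at least `1 / r`) alone gives only `c / (r log log r)`.
-/

open Finset

namespace Pool.Agent.Results.MP_61161c_nt.MonochromaticGoldbach

open Classical in
/-- **Monochromatic Goldbach representations.** -/
theorem result :
    (∃ c : ℝ, 0 < c ∧ ∀ r : ℕ, 2 ≤ r →
      ∃ δ : ℝ, 0 < δ ∧ ∃ X₀ : ℕ, ∀ X : ℕ, X₀ ≤ X → ∀ κ : Nat.Primes → Fin r,
        c / Real.log r * X ≤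
        (((Finset.Icc 1 X).filter fun n : ℕ =>
          δ * X / Real.log X ^ 2 < (({a : Nat.Primes × Nat.Primes | a.1 ≠ a.2 ∧
            (a.1 : ℕ) + a.2 = 2 * n ∧ κ a.1 = κ a.2}.ncard : ℕ) : ℝ)).card : ℝ)) ∧
    (∃ C : ℝ, 0 < C ∧ ∀ r : ℕ, 3 ≤ r →
      ∃ κ : Nat.Primes → Fin r, ∃ X₀ : ℕ, ∀ X : ℕ, X₀ ≤ X →
        (((Finset.Icc 1 X).filter fun n : ℕ =>
          0 < {a : Nat.Primes × Nat.Primes | a.1 ≠ a.2 ∧
            (a.1 : ℕ) + a.2 = 2 * n ∧ κ a.1 = κ a.2}.ncard).card : ℝ) ≤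
        C / Real.log (Real.log r) * X) := by
  refine ⟨?_, ?_⟩
  · obtain ⟨c, hc, h⟩ := Pool.Agent.Lib.MG.mono_lower
    refine ⟨c, hc, fun r hr => ?_⟩
    obtain ⟨δ, hδ, X₀, h1⟩ := h r hr
    exact ⟨δ, hδ, X₀, fun X hX κ => h1 X hX κ⟩
  · obtain ⟨C, hC, h⟩ := Pool.Agent.Lib.MG.mono_upper
    refine ⟨C, hC, fun r hr => ?_⟩
    obtain ⟨κ, X₀, h1⟩ := h r hr
    exact ⟨κ, X₀, fun X hX => h1 X hX⟩

end Pool.Agent.Results.MP_61161c_nt.MonochromaticGoldbach
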