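import Pool.Agent.Lib.MP_7b7e48_nt.PQ.FINs

/-!
# MP_7b7e48: small multiples of EVERY large integer as sums of a prime and an almost prime of prescribed parity

Unconditional, for every large `N`. The parity of the number of prime factors of the almost prime is prescribed.
-/

namespace Pool.Agent.Results.MP_7b7e48_nt.PrimePlusAlmostPrime

open ArithmeticFunction (cardFactors)

/-- the primes `p > N` of the representations `k N = p + b` with `b > N`, where `b` has at most `C` prime factors (counted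
with multiplicity), each of them larger than `N ^ (1 / C)`, and their number has the parity of `i` -/
def reps (C N i k : ℕ) : Set ℕ := {p | p.Prime ∧ N < p ∧ ∃ b : ℕ, N < b ∧ p + b = k * N ∧
  cardFactors b ≤ C ∧ cardFactors b % 2 = i % 2 ∧ ∀ q : ℕ, q.Prime → q ∣ b → N < q ^ C}

private theorem good_iff {C N i k p : ℕ} : Pool.Agent.Lib.PQ.Good C N i k p ↔ p ∈ reps C N i k := by
  unfold Pool.Agent.Lib.PQ.Good reps
  constructor
  · rintro ⟨h1, h2, h3, h4⟩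
    exact ⟨h1, h2, k * N - p, h3, by omega, h4⟩
  · rintro ⟨h1, h2, b, h3, h4, h5⟩
    have h6 : k * N - p = b := by omega
    rw [h6]
    exact ⟨h1, h2, h3, h5⟩

theorem result : ∀ δ ε : ℝ, 0 < δ → 0 < ε → ∃ c : ℝ, 0 < c ∧ ∃ C N₀ : ℕ, ∀ N : ℕ, N₀ ≤ N → ∀ i : ℕ,
    (N : ℝ) ^ (δ - ε) ≤ ({k : ℕ | 0 < k ∧ (k : ℝ) ≤ (N : ℝ) ^ δ ∧
      ((k * N : ℕ) : ℝ) ^ (1 - ε) ≤ ((reps C N i k).ncard : ℝ)}.ncard : ℝ) ∧
    c * ((N : ℝ) ^ (1 + δ) / Real.log N) ≤ ({p : ℕ | (p : ℝ) ≤ (N : ℝ) ^ (1 + δ) ∧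
      ∃ k : ℕ, 0 < k ∧ (k : ℝ) ≤ (N : ℝ) ^ δ ∧ p ∈ reps C N i k}.ncard : ℝ) := by
  classical
  intro δ ε hδ hε
  obtain ⟨c, hc, C, N0, h⟩ := Pool.Agent.Lib.PQ.FINs δ ε hδ hε
  refine ⟨c, hc, C, N0, fun N hN i => ?_⟩
  obtain ⟨h1, h2⟩ := h N hN i
  have hr : ∀ k : ℕ, ((Finset.range (k * N)).filter (Pool.Agent.Lib.PQ.Good C N i k)).card = (reps C N i k).ncard := by
    intro k
    rw [← Set.ncard_coe_finset]
    congr 1
    ext p
    rw [Finset.mem_coe, Finset.mem_filter, Finset.mem_range, good_iff]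
    constructor
    · exact fun h => h.2
    · intro h
      obtain ⟨h1, h2, b, h3, h4, h5⟩ := id h
      exact ⟨by omega, h⟩
  constructor
  · refine h1.trans (le_of_eq ?_)
    rw [← Set.ncard_coe_finset]
    congr 2
    ext k
    rw [Finset.mem_coe, Finset.mem_filter, Finset.mem_Icc, hr]
    constructor
    · intro hk
      exact ⟨hk.1.1, (Nat.le_floor_iff' (by omega)).mp hk.1.2, hk.2⟩
    · intro hk
      exact ⟨⟨hk.1, Nat.le_floor hk.2.1⟩, hk.2.2⟩
  · refine h2.trans (le_of_eq ?_)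
    rw [← Set.ncard_coe_finset]
    congr 2
    ext p
    rw [Finset.mem_coe, Finset.mem_filter, Finset.mem_Icc]
    constructor
    · rintro ⟨hp, k, hk1, hk2, hg⟩
      exact ⟨(Nat.le_floor_iff' (by omega)).mp hp.2, k, hk1, hk2, good_iff.mp hg⟩
    · rintro ⟨hp, k, hk1, hk2, hg⟩
      exact ⟨⟨hg.1.one_le, Nat.le_floor hp⟩, k, hk1, hk2, good_iff.mpr hg⟩

end Pool.Agent.Results.MP_7b7e48_nt.PrimePlusAlmostPrime
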