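import Pool.Agent.Lib.G3.G4

/-!
# MP_7b7e48: a prime plus a product of exactly `k` primes in very short intervals

For `k ≥ 2` almost all even `N` of every interval `(X, X + H]`, `H` at least a power of `log X`, are the sum of a prime and a
product of exactly `k` distinct primes, all larger than a given power of `log N`, in at least
`N / ((log N)^2 (log log N)^(k+1))` ways.
-/

set_option autoImplicit false

open Finset

namespace Pool.Agent.Results.MP_7b7e48_nt.PrimePlusExactlyK

open Classical in
/-- the primes `p < N` such that `N - p` is squarefree with exactly `k` prime factors, all larger than `(log N)^B` -/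
noncomputable def reps (k B N : ℕ) : Finset ℕ :=
  (range N).filter fun p => p.Prime ∧ Squarefree (N - p) ∧ (N - p).primeFactors.card = k ∧
    ∀ l ∈ (N - p).primeFactors, (Real.log N) ^ B < l

open Classical in
/-- the even `N` in `(X, X + H]` with fewer than `N / ((log N)^2 (log log N)^(k+1))` such primes -/
noncomputable def exceptions (k B X H : ℕ) : Finset ℕ :=
  (Ioc X (X + H)).filter fun N => Even N ∧
    ((reps k B N).card : ℝ) < N / ((Real.log N) ^ 2 * (Real.log (Real.log N)) ^ (k + 1))

/-- **Theorem.** For all `k ≥ 2` and `B`, `A` there are `C` and `X₀` such that for all `X ≥ X₀` and all `H` with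
`(log X)^C ≤ H ≤ X` all but at most `H / (log X)^A` of the even numbers `N` in `(X, X + H]` have at least
`N / ((log N)^2 (log log N)^(k+1))` representations `N = p + m` with `p` prime and `m` a product of exactly `k` distinct
primes, all larger than `(log N)^B`. -/
theorem result : ∀ k B A : ℕ, 2 ≤ k → ∃ C X₀ : ℕ, ∀ X H : ℕ, X₀ ≤ X → (Real.log X) ^ C ≤ H → H ≤ X →
    ((exceptions k B X H).card : ℝ) ≤ H / (Real.log X) ^ A := by
  classical
  intro k B A hk
  obtain ⟨C, x0, h⟩ := Pool.Agent.Lib.G3.g4 k B A hk
  refine ⟨C, max 1 ⌈x0⌉₊, fun X H hX hH1 hH2 => ?_⟩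
  have hX1 : x0 ≤ X := (Nat.le_ceil x0).trans (by exact_mod_cast (le_max_right _ _).trans hX)
  have hX2 : 1 ≤ X := (le_max_left _ _).trans hX
  refine le_trans ?_ (h X hX1 H hH1 hH2)
  have hreps : ∀ N, Pool.Agent.Lib.G3.repsB k B N ≤ (reps k B N).card := by
    intro N
    unfold Pool.Agent.Lib.G3.repsB reps
    refine card_le_card fun p hp => ?_
    rw [mem_filter] at hp ⊢
    exact ⟨hp.1, hp.2.1, hp.2.2.1, hp.2.2.2.1, fun l hl => hp.2.2.2.2 l (Nat.prime_of_mem_primeFactors hl) (Nat.dvd_of_mem_primeFactors hl)⟩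
  have hsub : exceptions k B X H ⊆ (Ioc X (X + H)).filter fun N => Even N ∧
      (Pool.Agent.Lib.G3.repsB k B N : ℝ) < N / ((Real.log N) ^ 2 * (Real.log (Real.log N)) ^ (k + 1)) := by
    intro N hN
    unfold exceptions at hN
    rw [mem_filter] at hN ⊢
    exact ⟨hN.1, hN.2.1, lt_of_le_of_lt (by exact_mod_cast hreps N) hN.2.2⟩
  exact_mod_cast card_le_card hsub

end Pool.Agent.Results.MP_7b7e48_nt.PrimePlusExactlyK
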