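import Pool.Agent.Lib.MP_7b7e48_nt.OA.AFIN
import Pool.Agent.Lib.MP_7b7e48_nt.TE.XT

/-!
# Goldbach's problem for integers with an odd number of prime factors and without small prime factors: every large `N`

`Ω` is the number of prime factors, counted with multiplicity; `i, j` are in `{0, 1}`.

(1) Let `q ≥ 1` and `ε > 0`. For all large `N` (even or odd) and all residue classes `a`, `b` modulo `q` which are coprime to `q` and
satisfy `a + b ≡ N`, the number of `0 < n < N`, `n ≠ N - n`, `n ≡ a` (so `N - n ≡ b`) with `Ω n ≡ i` and `Ω (N - n) ≡ j`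
modulo `2` is at least `N ^ (1 - ε)`.

(2) Let `A ≥ 0` and `ε > 0`. There is `C` such that for every large even `N` at least `N ^ (1 - ε)` of the `0 < n < N` with
`Ω n ≡ i` and `Ω (N - n) ≡ j` modulo `2` are coprime to `N`, all prime factors of `n` are `> (log N) ^ A` and all prime factors of
`N - n` are `> N ^ (1 / (C log log N))`. In particular every large even integer is the sum of two coprime integers which both have
an odd number of prime factors, the first has no prime factor `≤ (log N) ^ A`, and the second has at most `C log log N` prime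
factors.
-/

open Pool.Agent.Lib.OA

namespace Pool.Agent.Lib.MP_7b7e48_nt.Shelf.RoughLiouvilleGoldbach

/-- the `0 < n < N` with `n ≠ N - n` and `n ≡ a` modulo `q` such that the numbers of prime factors of `n` and of `N - n`
(with multiplicity) are congruent to `i` and to `j` modulo `2` -/
def reps (q N a i j : ℕ) : Finset ℕ :=
  (Finset.Ioo 0 N).filter fun n => n ≠ N - n ∧ n % q = a % q ∧
    ArithmeticFunction.cardFactors n % 2 = i ∧ ArithmeticFunction.cardFactors (N - n) % 2 = j

open Classical in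
/-- the `0 < n < N`, coprime to `N`, with `n ≠ N - n`, such that the numbers of prime factors of `n` and of `N - n` (with
multiplicity) are congruent to `i` and to `j` modulo `2`, all prime factors of `n` are `> (log N) ^ A` and all prime factors of
`N - n` are `> N ^ (1 / (C log log N))` -/
noncomputable def roughReps (A : ℕ) (C : ℝ) (N i j : ℕ) : Finset ℕ :=
  (Finset.Ioo 0 N).filter fun n => n ≠ N - n ∧ n.Coprime N ∧
    ArithmeticFunction.cardFactors n % 2 = i ∧ ArithmeticFunction.cardFactors (N - n) % 2 = j ∧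
    (∀ p ∈ n.primeFactors, (Real.log N) ^ A < p) ∧
    ∀ p ∈ (N - n).primeFactors, (N : ℝ) ^ (1 / (C * Real.log (Real.log N))) < p

theorem result :
    (∀ q : ℕ, 1 ≤ q → ∀ ε : ℝ, 0 < ε → ∃ N₀ : ℕ, ∀ N : ℕ, N₀ ≤ N → ∀ a b : ℕ, a.Coprime q → b.Coprime q →
      a + b ≡ N [MOD q] → ∀ i j : ℕ, i < 2 → j < 2 → (N : ℝ) ^ (1 - ε) ≤ ((reps q N a i j).card : ℝ)) ∧
    (∀ A : ℕ, ∀ ε : ℝ, 0 < ε → ∃ (C : ℝ) (N₀ : ℕ), 0 < C ∧ ∀ N : ℕ, N₀ ≤ N → Even N → ∀ i j : ℕ, i < 2 → j < 2 →
      (N : ℝ) ^ (1 - ε) ≤ ((roughReps A C N i j).card : ℝ)) :=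
  ⟨afin_cls, Pool.Agent.Lib.TE.tc2⟩

end Pool.Agent.Lib.MP_7b7e48_nt.Shelf.RoughLiouvilleGoldbach
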