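import Mathlib
import Pool.Agent.Lib.MP_7b7e48_nt.RightConst
import Pool.Agent.Lib.MP_7b7e48_nt.SquareMean

/-!
# Goldbach representations with a very small prime: at least the Hardy-Littlewood number of them
for a positive proportion of the even numbers

For every `ε > 0` there is `c > 0` such that for all large `X` and all `Y` with
`C log X log log X ≤ Y ≤ c X`, at least `c X` of the integers `n ≤ X` have at least
`((1 - ε) 𝔖(2n) + c) π(Y) π(2X) / (2X)` primes `p ≤ Y`, `p < n`, with `2n - p` prime, where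
`𝔖(2n) = 2 C₂ ∏_{p | n, p > 2} (p - 1) / (p - 2)` is the Hardy-Littlewood singular series.
-/

open Finset Filter Topology

namespace Pool.Agent.Lib.MP_7b7e48_nt.Shelf.SmallPrimeUniform

open Pool.Agent.Lib.MP_7b7e48_nt

theorem tendsto_log_nat : Tendsto (fun X : ℕ => Real.log (X : ℝ)) atTop atTop :=
  Real.tendsto_log_atTop.comp tendsto_natCast_atTop_atTop

theorem card_oddPrimes_add_one_eq (Y : ℕ) (hY : 2 ≤ Y) :
    Nat.primeCounting Y = (oddPrimes Y).card + 1 := by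
  rw [← Nat.primesLE_card_eq_primeCounting Y]
  have : Nat.primesLE Y = insert 2 (oddPrimes Y) := by
    ext p
    rw [Nat.mem_primesLE, Finset.mem_insert, oddPrimes, Finset.mem_filter, Finset.mem_Icc]
    constructor
    · rintro ⟨h1, h2⟩
      have := h2.two_le
      rcases Nat.lt_or_ge 2 p with h | h
      · exact Or.inr ⟨⟨h, h1⟩, h2⟩
      · exact Or.inl (by omega)
    · rintro (h | h)
      · subst h; exact ⟨hY, Nat.prime_two⟩
      · exact ⟨h.1.2, h.2⟩
  rw [this, Finset.card_insert_of_notMem]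
  simp [oddPrimes]

theorem result : ∃ C₂ : ℝ, 0 < C₂ ∧
    Tendsto (fun z : ℕ => ∏ p ∈ (Nat.primesBelow z).filter (2 < ·), (1 - 1 / ((p : ℝ) - 1) ^ 2))
      atTop (𝓝 C₂) ∧
    ∃ C : ℝ, ∀ ε : ℝ, 0 < ε → ∃ c : ℝ, 0 < c ∧ ∃ X₀ : ℕ, ∀ X Y : ℕ, X₀ ≤ X →
      C * Real.log X * Real.log (Real.log X) ≤ Y → (Y : ℝ) ≤ c * X →
      c * X ≤ (((Finset.Icc 1 X).filter (fun n =>
        ((1 - ε) * (2 * C₂ *
            ∏ p ∈ n.primeFactors.filter (2 < ·), ((((p : ℕ) : ℝ) - 1) / (((p : ℕ) : ℝ) - 2))) + c) *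
          ((Nat.primeCounting Y : ℝ) * (Nat.primeCounting (2 * X) : ℝ) / (2 * X)) ≤
          (((Finset.Icc 1 Y).filter (fun p => p.Prime ∧ p < n ∧
            (2 * n - p).Prime)).card : ℝ))).card : ℝ) := by
  obtain ⟨C₂, hC0, hlim, hC₂⟩ := exists_twin
  obtain ⟨K, hK1, hK⟩ := diffSum_oddPrimes_le
  have hK0 : 0 < K := by linarith
  refine ⟨C₂, hC0, hlim, 100, fun ε hε => ?_⟩
  set δ : ℝ := min ε 1 with hδ
  have hδ0 : 0 < δ := by positivity
  have hδ1 : δ ≤ 1 := min_le_right _ _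
  have hδε : δ ≤ ε := min_le_left _ _
  obtain ⟨c1, hc1, X1, hrom⟩ := romanoff_right C₂ hC0 hC₂ (δ / 2) (by positivity) (by linarith)
  -- eventual conditions on `X`
  have hev : ∀ᶠ X : ℕ in atTop, X1 ≤ X ∧ 3200 ≤ X ∧ (200 : ℝ) ≤ Real.log X ∧
      (200 : ℝ) ≤ Real.log (Real.log X) ∧ 4 / δ ≤ Real.log X := by
    have t1 := tendsto_log_nat
    have t2 : Tendsto (fun X : ℕ => Real.log (Real.log (X : ℝ))) atTop atTop :=
      Real.tendsto_log_atTop.comp t1
    filter_upwards [eventually_ge_atTop X1, eventually_ge_atTop 3200,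
      t1.eventually_ge_atTop 200, t2.eventually_ge_atTop 200,
      t1.eventually_ge_atTop (4 / δ)] with X h1 h2 h3 h4 h5
    exact ⟨h1, h2, h3, h4, h5⟩
  obtain ⟨X₀, hX₀⟩ := eventually_atTop.mp hev
  set c : ℝ := min (c1 / K) (c1 / 2) with hc
  have hc0 : 0 < c := by positivity
  refine ⟨c, hc0, X₀, fun X Y hX hY hYX => ?_⟩
  obtain ⟨hX1, hX3, hL, hLL, hLδ⟩ := hX₀ X hX
  set L := Real.log (X : ℝ) with hLdef
  have hL0 : 0 < L := by linarith
  have hXr : (3200 : ℝ) ≤ X := by exact_mod_cast hX3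
  -- the base level `Y0`
  obtain ⟨Y0, hY0⟩ : ∃ Y0 : ℕ, Y0 = ⌈100 * L * Real.log L⌉₊ := ⟨_, rfl⟩
  have hLlog : Real.log L ≤ L := (Real.log_le_sub_one_of_pos hL0).trans (by linarith)
  have hY0ge : 100 * L * Real.log L ≤ (Y0 : ℝ) := by rw [hY0]; exact Nat.le_ceil _
  have hY0pos : 0 ≤ 100 * L * Real.log L := by positivity
  have hY0lt : (Y0 : ℝ) < 100 * L * Real.log L + 1 := by
    rw [hY0]; exact Nat.ceil_lt_add_one hY0pos
  have hY0le2 : (Y0 : ℝ) ≤ 100 * L ^ 2 + 1 := by nlinarith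
  have hY0Y : Y0 ≤ Y := by rw [hY0]; exact Nat.ceil_le.mpr hY
  have hY0big : (3 : ℝ) ≤ Y0 := by nlinarith
  have hY03 : 3 ≤ Y0 := by exact_mod_cast hY0big
  have hY3 : 3 ≤ Y := hY03.trans hY0Y
  -- the set of small primes
  set Q := oddPrimes Y with hQ
  have hQmem : ∀ q ∈ Q, q.Prime ∧ q ≠ 2 ∧ (q : ℝ) ≤ c1 * X := by
    intro q hq
    have h1 := Finset.mem_filter.mp hq
    have h2 := Finset.mem_Icc.mp h1.1
    have h3 : (q : ℝ) ≤ Y := by exact_mod_cast h2.2
    have h4 : c ≤ c1 := by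
      have : c ≤ c1 / 2 := min_le_right _ _
      linarith
    have h5 : c * X ≤ c1 * X := by gcongr
    exact ⟨h1.2, by omega, by linarith⟩
  have hQL : L ≤ (Q.card : ℝ) := by
    have h1 := card_oddPrimes_ge Y0 hY03
    have h2 : ((oddPrimes Y0).card : ℝ) ≤ Q.card := by
      have : (oddPrimes Y0).card ≤ Q.card := by
        apply Finset.card_le_card
        intro q hq
        have h3 := Finset.mem_filter.mp hq
        have h4 := Finset.mem_Icc.mp h3.1
        exact Finset.mem_filter.mpr ⟨Finset.mem_Icc.mpr ⟨h4.1, by omega⟩, h3.2⟩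
      exact_mod_cast this
    have hlogY0 : Real.log Y0 ≤ 3 * Real.log L := by
      have h3 : (Y0 : ℝ) ≤ L ^ 3 := by
        have : (200 : ℝ) * L ^ 2 ≤ L ^ 3 := by nlinarith [sq_nonneg L]
        nlinarith
      calc Real.log Y0 ≤ Real.log (L ^ 3) := Real.log_le_log (by linarith) h3
        _ = 3 * Real.log L := by rw [Real.log_pow]; norm_num
    have hlogY0pos : 0 < Real.log Y0 := Real.log_pos (by linarith)
    have h5 : L ≤ (1 / 20 : ℝ) * Y0 / Real.log Y0 := by
      rw [le_div_iff₀ hlogY0pos]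
      calc L * Real.log Y0 ≤ L * (3 * Real.log L) := by gcongr
        _ ≤ (1 / 20) * (100 * L * Real.log L) := by nlinarith
        _ ≤ (1 / 20) * Y0 := by gcongr
    linarith
  have hmain := hrom X hX1 Q hQmem hQL K hK1 (hK Y hY3)
  -- conclusion
  have hcK : c * X ≤ c1 * X / K := by
    have h1 : c ≤ c1 / K := min_le_left _ _
    calc c * X ≤ c1 / K * X := by gcongr
      _ = c1 * X / K := by ring
  refine hcK.trans (hmain.trans ?_)
  have hQ0 : (0 : ℝ) < Q.card := by linarith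
  have hpiY : (Nat.primeCounting Y : ℝ) = (Q.card : ℝ) + 1 := by
    exact_mod_cast card_oddPrimes_add_one_eq Y (by omega)
  have hsub : (Finset.Icc 1 X).filter (fun n =>
      ((1 - δ / 2) * (2 * C₂ * hlF n) + c1) *
        ((Q.card : ℝ) * (Nat.primeCounting (2 * X) : ℝ) / (2 * X)) ≤
      ((Q.filter (fun q => q < n ∧ (2 * n - q).Prime)).card : ℝ)) ⊆
      (Finset.Icc 1 X).filter (fun n =>
        ((1 - ε) * (2 * C₂ *
            ∏ p ∈ n.primeFactors.filter (2 < ·), ((((p : ℕ) : ℝ) - 1) / (((p : ℕ) : ℝ) - 2))) + c) *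
          ((Nat.primeCounting Y : ℝ) * (Nat.primeCounting (2 * X) : ℝ) / (2 * X)) ≤
          (((Finset.Icc 1 Y).filter (fun p => p.Prime ∧ p < n ∧
            (2 * n - p).Prime)).card : ℝ)) := by
    intro n hn
    have hn := Finset.mem_filter.mp hn
    refine Finset.mem_filter.mpr ⟨hn.1, ?_⟩
    have h1 : ((Q.filter (fun q => q < n ∧ (2 * n - q).Prime)).card : ℝ) ≤
        (((Finset.Icc 1 Y).filter (fun p => p.Prime ∧ p < n ∧
            (2 * n - p).Prime)).card : ℝ) := by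
      have : (Q.filter (fun q => q < n ∧ (2 * n - q).Prime)).card ≤
          ((Finset.Icc 1 Y).filter (fun p => p.Prime ∧ p < n ∧
            (2 * n - p).Prime)).card := by
        apply Finset.card_le_card
        intro q hq
        have h2 := Finset.mem_filter.mp hq
        have h3 := Finset.mem_filter.mp h2.1
        have h4 := Finset.mem_Icc.mp h3.1
        exact Finset.mem_filter.mpr ⟨Finset.mem_Icc.mpr ⟨by omega, by omega⟩, h3.2, h2.2⟩
      exact_mod_cast this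
    refine le_trans ?_ (hn.2.trans h1)
    have hF : (∏ p ∈ n.primeFactors.filter (2 < ·), ((((p : ℕ) : ℝ) - 1) / (((p : ℕ) : ℝ) - 2))) = hlF n := rfl
    rw [hF, hpiY]
    have hF0 := hlF_nonneg n
    set F := 2 * C₂ * hlF n with hFdef
    have hF0' : 0 ≤ F := by positivity
    set w := (Nat.primeCounting (2 * X) : ℝ) / (2 * X) with hw
    have hw0 : 0 ≤ w := by positivity
    have e1 : ((1 - ε) * F + c) * (((Q.card : ℝ) + 1) * (Nat.primeCounting (2 * X) : ℝ) / (2 * X)) =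
        (((1 - ε) * F + c) * ((Q.card : ℝ) + 1)) * w := by rw [hw]; ring
    have e2 : ((1 - δ / 2) * F + c1) * ((Q.card : ℝ) * (Nat.primeCounting (2 * X) : ℝ) / (2 * X)) =
        (((1 - δ / 2) * F + c1) * (Q.card : ℝ)) * w := by rw [hw]; ring
    rw [e1, e2]
    refine mul_le_mul_of_nonneg_right ?_ hw0
    have hQδ : 4 / δ ≤ (Q.card : ℝ) := hLδ.trans hQL
    have hQδ' : 4 ≤ δ * (Q.card : ℝ) := by
      rw [div_le_iff₀ hδ0] at hQδ
      linarith
    have hQ200 : (200 : ℝ) ≤ Q.card := by linarith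
    have h2 : (1 - ε) * ((Q.card : ℝ) + 1) ≤ (1 - δ / 2) * (Q.card : ℝ) := by
      have : (1 - ε) * ((Q.card : ℝ) + 1) ≤ (1 - δ) * ((Q.card : ℝ) + 1) := by gcongr
      nlinarith
    have h3 : c * ((Q.card : ℝ) + 1) ≤ c1 * (Q.card : ℝ) := by
      have h4 : c ≤ c1 / 2 := min_le_right _ _
      calc c * ((Q.card : ℝ) + 1) ≤ c1 / 2 * (2 * (Q.card : ℝ)) := by
            gcongr
            linarith
        _ = c1 * (Q.card : ℝ) := by ring
    calc ((1 - ε) * F + c) * ((Q.card : ℝ) + 1)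
        = (1 - ε) * ((Q.card : ℝ) + 1) * F + c * ((Q.card : ℝ) + 1) := by ring
      _ ≤ (1 - δ / 2) * (Q.card : ℝ) * F + c1 * (Q.card : ℝ) := by gcongr
      _ = ((1 - δ / 2) * F + c1) * (Q.card : ℝ) := by ring
  exact_mod_cast Finset.card_le_card hsub

end Pool.Agent.Lib.MP_7b7e48_nt.Shelf.SmallPrimeUniform
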