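import Pool.Agent.Lib.SW.TS.TS10
import Pool.Agent.Lib.SW.TS.TS11

/-!
# Sums of two sparse sets of primes

Let `A` and `B` be any two sets of primes up to `X`, each with at least `X / (log X)^K` elements.
Then at least `(e^(-γ) - ε) max(#A, #B) log X / logloglog X` of the numbers `n ≤ X` satisfy
`2n = a + b` with `a ∈ A`, `b ∈ B`, `a ≠ b`, and this is best possible, for every size of `B`.

The upper bound for the number of representations which is behind this holds for all but
`X / (log X)^K` integers and for every set `S` of integers.  It is proved by moments of order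
`C loglog X`, a sieve of growing dimension and the theorem of Siegel and Walfisz.
-/

open Finset

namespace Pool.Agent.Lib.MP_7b7e48_nt.Shelf.SparseSumsets

/-- The number of `n ≤ X` with `2n = a + b` for some `a ∈ A`, `b ∈ B`, `a ≠ b`. -/
def sumCount (X : ℕ) (A B : Finset ℕ) : ℕ :=
  ((Icc 1 X).filter (fun n => ∃ a ∈ A, ∃ b ∈ B, a ≠ b ∧ a + b = 2 * n)).card

/-- A set of primes up to `X` with at least `X / (log X)^K` elements. -/
def Sparse (K X : ℕ) (A : Finset ℕ) : Prop :=
  (∀ a ∈ A, a.Prime ∧ a ≤ X) ∧ X / (Real.log X) ^ K ≤ (A.card : ℝ)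

/-- The number of representations of `N` as the sum of an element of `S` and a prime. -/
def repCount (S : Finset ℕ) (N : ℕ) : ℕ :=
  (S.filter (fun s => s < N ∧ (N - s).Prime)).card

open Pool.Agent.Lib.SW Pool.Agent.Lib.GT

theorem sumCount_comm (X : ℕ) (A B : Finset ℕ) : sumCount X A B = sumCount X B A := by
  unfold sumCount
  congr 1
  apply Finset.filter_congr
  intro n _
  constructor
  · rintro ⟨a, ha, b, hb, h1, h2⟩
    exact ⟨b, hb, a, ha, h1.symm, by omega⟩
  · rintro ⟨a, ha, b, hb, h1, h2⟩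
    exact ⟨b, hb, a, ha, h1.symm, by omega⟩

theorem sumCount_mono {X : ℕ} {A A' B : Finset ℕ} (h : A' ⊆ A) :
    sumCount X A' B ≤ sumCount X A B := by
  refine Finset.card_le_card ?_
  intro n hn
  rw [Finset.mem_filter] at hn ⊢
  obtain ⟨hn1, a, ha, b, hb, h1, h2⟩ := hn
  exact ⟨hn1, a, h ha, b, hb, h1, h2⟩

theorem result :
    -- all sets `A`, `B` of primes of relative density at least a power of `1/log X`
    (∀ (K : ℕ) (ε : ℝ), 0 < ε → ∃ X₀ : ℕ, ∀ X : ℕ, X₀ ≤ X → ∀ A B : Finset ℕ,
      Sparse K X A → Sparse K X B →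
        (Real.exp (-Real.eulerMascheroniConstant) - ε) * max (A.card : ℝ) B.card *
            Real.log X / Real.log (Real.log (Real.log X)) ≤ (sumCount X A B : ℝ)) ∧
    -- the constant is best possible, for every size `M` of the larger set
    (∀ (K : ℕ) (ε : ℝ), 0 < ε → ∃ X₀ : ℕ, ∀ X : ℕ, X₀ ≤ X → ∀ M : ℕ,
      X / (Real.log X) ^ K ≤ (M : ℝ) → M ≤ Nat.primeCounting X →
        ∃ A B : Finset ℕ, Sparse (K + 4) X A ∧ Sparse K X B ∧ A.card ≤ M ∧ M ≤ B.card ∧
          (sumCount X A B : ℝ) ≤ (Real.exp (-Real.eulerMascheroniConstant) + ε) * M *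
            Real.log X / Real.log (Real.log (Real.log X))) ∧
    -- the number of representations as a sum of an element of any set `S` and a prime
    (∀ (K : ℕ) (ε : ℝ), 0 < ε → ∃ X₀ : ℕ, ∀ X : ℕ, X₀ ≤ X → ∀ S : Finset ℕ, S ⊆ Icc 1 X →
      X / (Real.log X) ^ K ≤ (S.card : ℝ) →
        (((Icc 1 (2 * X)).filter (fun N =>
          (1 + ε) * Real.exp Real.eulerMascheroniConstant * Real.log (Real.log (Real.log X)) *
            S.card / Real.log X < (repCount S N : ℝ))).card : ℝ) ≤ X / (Real.log X) ^ K) := by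
  refine ⟨?_, ?_, ?_⟩
  · intro K ε hε
    obtain ⟨X₁, h1⟩ := two_sets K ε hε
    refine ⟨X₁, fun X hX A B hA hB => ?_⟩
    rcases le_total (A.card : ℝ) B.card with h | h
    · rw [max_eq_right h]
      exact h1 X hX A B hA.1 hB.1 hA.2 hB.2
    · rw [max_eq_left h, sumCount_comm]
      exact h1 X hX B A hB.1 hA.1 hB.2 hA.2
  · intro K ε hε
    obtain ⟨X₁, h1⟩ := two_sets_sharp K ε hε
    obtain ⟨X₂, hX₂⟩ := Filter.eventually_atTop.1
      ((eventually_log_ge 2).and (eventually_log_pow K (1 / 2) (by norm_num)))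
    refine ⟨max X₁ (max X₂ 3), fun X hX M hM1 hM2 => ?_⟩
    obtain ⟨hL2, hLK⟩ := hX₂ X ((le_max_left _ _).trans ((le_max_right _ _).trans hX))
    have hX3 : 3 ≤ X := (le_max_right _ _).trans ((le_max_right _ _).trans hX)
    have hXr : (3 : ℝ) ≤ X := by exact_mod_cast hX3
    have hL0 : 0 < Real.log X := by linarith
    obtain ⟨A, B, hA, hB, hAc, hBc, hs⟩ := h1 X ((le_max_left _ _).trans hX) M hM1
      (by exact_mod_cast hM2)
    have hBM : M ≤ B.card := by exact_mod_cast hBc
    -- a subset of `A` of the smallest admissible size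
    have hq : ⌈(X : ℝ) / (Real.log X) ^ (K + 4)⌉₊ ≤ A.card := Nat.ceil_le.2 hAc
    obtain ⟨A', hA'1, hA'2⟩ := Finset.exists_subset_card_eq hq
    have hA'M : A'.card ≤ M := by
      rw [hA'2]
      refine Nat.ceil_le.2 (le_trans ?_ hM1)
      exact div_le_div_of_nonneg_left (by linarith) (by positivity)
        (pow_le_pow_right₀ (by linarith) (by omega))
    refine ⟨A', B, ⟨fun a ha => hA a (hA'1 ha), ?_⟩, ⟨hB, hM1.trans hBc⟩, hA'M, hBM, ?_⟩
    · rw [hA'2]
      exact Nat.le_ceil _
    · exact (Nat.cast_le.2 (sumCount_mono hA'1)).trans hs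
  · intro K ε hε
    set η : ℝ := min ε 1 / 4 with hη
    have hmin : 0 < min ε 1 := lt_min hε one_pos
    have hη0 : 0 < η := by rw [hη]; positivity
    have hη1 : η ≤ 1 / 4 := by
      rw [hη]
      have := min_le_right ε 1
      linarith
    have hηε : 4 * η ≤ ε := by
      rw [hη]
      have := min_le_left ε 1
      linarith
    obtain ⟨X₁, h1⟩ := upper_all K η hη0
    obtain ⟨X₂, h2⟩ := eventually_range K η hη0
    obtain ⟨X₃, hX₃⟩ := Filter.eventually_atTop.1
      ((LG3_log3_ev 1).and (LG3_log_ev (max 1 (1 / η))))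
    refine ⟨max X₁ (max X₂ (max X₃ 3)), fun X hX S hS hSc => ?_⟩
    have hXa : X₁ ≤ X := (le_max_left _ _).trans hX
    have hXb : X₂ ≤ X := (le_max_left _ _).trans ((le_max_right _ _).trans hX)
    have hXc : X₃ ≤ X := (le_max_left _ _).trans
      ((le_max_right _ _).trans ((le_max_right _ _).trans hX))
    have hX3 : 3 ≤ X := (le_max_right _ _).trans
      ((le_max_right _ _).trans ((le_max_right _ _).trans hX))
    have hXr : (3 : ℝ) ≤ X := by exact_mod_cast hX3
    obtain ⟨hT3, hL⟩ := hX₃ X hXc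
    obtain ⟨hL1, _, hT1, hTlog⟩ := h2 X hXb
    have hLη : 1 / η ≤ Real.log X := (le_max_right _ _).trans hL
    refine le_trans ?_ (h1 X hXa S hS hSc)
    norm_cast
    refine Finset.card_le_card ?_
    intro N hN
    rw [Finset.mem_filter] at hN ⊢
    obtain ⟨hN1, hN2⟩ := hN
    refine ⟨hN1, ?_⟩
    have h3 := reps_le S N _ hT1
    have h4 : (repCount S N : ℝ) = (reps S N : ℝ) := rfl
    rw [h4] at hN2
    set L : ℝ := Real.log X with hLdef
    have hL0 : 0 < L := by linarith
    set T : ℝ := X / L ^ (K + 2) with hT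
    set T3 : ℝ := Real.log (Real.log L) with hT3def
    set G : ℝ := Real.exp Real.eulerMascheroniConstant with hG
    have hG1 : 1 ≤ G := Real.one_le_exp (by
      have := Real.one_half_lt_eulerMascheroniConstant
      linarith)
    by_contra hcon
    have hcon' : rS S N ≤ (1 + η) * G * T3 * S.card := not_lt.1 hcon
    have hlT : 0 < Real.log T := Real.log_pos hT1
    have hc0 : 0 < (S.card : ℝ) := lt_of_lt_of_le (by positivity) hSc
    set c : ℝ := (S.card : ℝ) with hc
    have h5 : T ≤ η * (c / L) := by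
      have e1 : T = 1 / L * (1 / L) * (X / L ^ K) := by
        rw [hT, pow_add]
        field_simp
      have e2 : 1 / L ≤ η := by
        rw [div_le_iff₀ hL0]
        rw [div_le_iff₀ hη0] at hLη
        linarith
      calc T = 1 / L * (1 / L) * (X / L ^ K) := e1
        _ ≤ η * (1 / L) * c := by gcongr
        _ = η * (c / L) := by ring
    have h6 : rS S N / Real.log T ≤ (1 + η) * G * T3 * c / ((1 - η / 2) * L) := by
      have e1 : 0 < (1 - η / 2) * L := mul_pos (by linarith) hL0
      exact div_le_div₀ (by positivity) hcon' e1 hTlog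
    have h7 : (1 + η) * G * T3 * c / ((1 - η / 2) * L) ≤
        (1 + 2 * η) * (G * T3 * (c / L)) := by
      have e1 : 0 < (1 - η / 2) * L := mul_pos (by linarith) hL0
      rw [div_le_iff₀ e1]
      have e2 : (1 + η) ≤ (1 + 2 * η) * (1 - η / 2) := by nlinarith
      calc (1 + η) * G * T3 * c = (1 + η) * (G * T3 * c) := by ring
        _ ≤ (1 + 2 * η) * (1 - η / 2) * (G * T3 * c) :=
            mul_le_mul_of_nonneg_right e2 (by positivity)
        _ = (1 + 2 * η) * (G * T3 * (c / L)) * ((1 - η / 2) * L) := by field_simp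
    have h8 : η * (c / L) ≤ η * (G * T3 * (c / L)) := by
      have e1 : 1 ≤ G * T3 := one_le_mul_of_one_le_of_one_le hG1 hT3
      have e2 : 0 ≤ c / L := by positivity
      exact mul_le_mul_of_nonneg_left (le_mul_of_one_le_left e2 e1) hη0.le
    have h9 : (reps S N : ℝ) ≤ (1 + 3 * η) * (G * T3 * (c / L)) := by
      have e1 : (1 + 3 * η) * (G * T3 * (c / L)) =
          (1 + 2 * η) * (G * T3 * (c / L)) + η * (G * T3 * (c / L)) := by ring
      linarith
    have h10 : (1 + 3 * η) * (G * T3 * (c / L)) ≤ (1 + ε) * G * T3 * c / L := by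
      have e1 : (1 + ε) * G * T3 * c / L = (1 + ε) * (G * T3 * (c / L)) := by ring
      rw [e1]
      exact mul_le_mul_of_nonneg_right (by linarith) (by positivity)
    linarith

end Pool.Agent.Lib.MP_7b7e48_nt.Shelf.SparseSumsets
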