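import Mathlib
import Pool.Agent.Lib.MP_7b7e48_nt.BalancedFinal

/-!
# Goldbach representations `2n = (n - k) + (n + k)` with a very small `k`

The exact order of the number of `n ≤ X` for which some `1 ≤ k ≤ K` has `n - k` and `n + k` both
prime, for `A log X ≤ K ≤ X`: it is `X min (1, K / log² X)`, and for a proportion of that order the
number of such `k` is at least of order `max (1, K / log² X)`.
-/

open Finset

namespace Pool.Agent.Lib.MP_7b7e48_nt.Shelf.SymmetricClosePrimes

open Pool.Agent.Lib.MP_7b7e48_nt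

theorem result : ∃ c C A : ℝ, 0 < c ∧ 0 < C ∧ 0 < A ∧ ∃ X₀ : ℕ, ∀ X K : ℕ, X₀ ≤ X →
    A * Real.log X ≤ K → K ≤ X →
    c * X * min 1 (K / (Real.log X) ^ 2) ≤
      (((Finset.Icc 1 X).filter (fun n => c * max 1 (K / (Real.log X) ^ 2) ≤
        (((Finset.Icc 1 K).filter (fun k => (n - k).Prime ∧ (n + k).Prime)).card : ℝ))).card : ℝ) ∧
    (((Finset.Icc 1 X).filter (fun n =>
        ∃ k ∈ Finset.Icc 1 K, (n - k).Prime ∧ (n + k).Prime)).card : ℝ) ≤
      C * X * min 1 (K / (Real.log X) ^ 2) := by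
  obtain ⟨c, hc, A, hA, X1, h1⟩ := balanced
  obtain ⟨C, hC, h2⟩ := first_moment_upper
  refine ⟨c, max 1 C, A, hc, by positivity, hA, max X1 2, fun X K hX hAK hK => ⟨?_, ?_⟩⟩
  · exact h1 X ((le_max_left _ _).trans hX) K hAK hK
  · have hX2 : 2 ≤ X := (le_max_right _ _).trans hX
    have h3 : (((Finset.Icc 1 X).filter (fun n =>
        ∃ k ∈ Finset.Icc 1 K, (n - k).Prime ∧ (n + k).Prime)).card : ℝ) ≤ X := by
      have : ((Finset.Icc 1 X).filter (fun n =>
        ∃ k ∈ Finset.Icc 1 K, (n - k).Prime ∧ (n + k).Prime)).card ≤ X :=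
        (Finset.card_filter_le _ _).trans (by simp)
      exact_mod_cast this
    have h4 : (((Finset.Icc 1 X).filter (fun n =>
        ∃ k ∈ Finset.Icc 1 K, (n - k).Prime ∧ (n + k).Prime)).card : ℝ) ≤
        ((∑ n ∈ Icc 1 X, balRep K n : ℕ) : ℝ) := by
      have : ((Finset.Icc 1 X).filter (fun n =>
        ∃ k ∈ Finset.Icc 1 K, (n - k).Prime ∧ (n + k).Prime)).card ≤
        ∑ n ∈ Icc 1 X, balRep K n := by
        rw [Finset.card_filter]
        refine Finset.sum_le_sum fun n _ => ?_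
        split_ifs with h
        · obtain ⟨k, hk, hk2⟩ := h
          unfold balRep
          rw [Nat.one_le_iff_ne_zero, Finset.card_ne_zero]
          exact ⟨k, Finset.mem_filter.mpr ⟨hk, hk2⟩⟩
        · exact Nat.zero_le _
      exact_mod_cast this
    have h5 := h2 X hX2 K
    have hX0 : (0 : ℝ) ≤ X := Nat.cast_nonneg _
    have hX0 : (0 : ℝ) ≤ K := Nat.cast_nonneg _
    rcases le_total (1 : ℝ) (K / (Real.log X) ^ 2) with h | h
    · rw [min_eq_left h, mul_one]
      calc _ ≤ (X : ℝ) := h3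
        _ = 1 * X := (one_mul _).symm
        _ ≤ max 1 C * X := by gcongr; exact le_max_left _ _
    · rw [min_eq_right h]
      calc _ ≤ C * X * K / (Real.log X) ^ 2 := h4.trans h5
        _ = C * X * (K / (Real.log X) ^ 2) := by ring
        _ ≤ max 1 C * X * (K / (Real.log X) ^ 2) := by gcongr; exact le_max_right _ _

end Pool.Agent.Lib.MP_7b7e48_nt.Shelf.SymmetricClosePrimes
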