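import Mathlib
import Pool.Agent.Lib.MP_7b7e48_nt.BalancedRight

/-!
# Sums of two nearly equal distinct odd primes: at least the Hardy-Littlewood number of them
for a positive proportion of the even numbers

For every `ε > 0` there is `c > 0` such that for all large `X` and all `K` with
`(log X)² ≤ K ≤ c X`, at least `c X` of the integers `n ≤ X` satisfy
`∑ (K - k) ≥ ((1 - ε) 𝔖(2n) + c) (K² / 2) (π(X) / X)²`, the sum over the `1 ≤ k ≤ K` with `n - k`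
and `n + k` both prime; `𝔖(2n) = 2 C₂ ∏_{p | n, p > 2} (p - 1) / (p - 2)`.
-/

open Finset Filter Topology

namespace Pool.Agent.Results.MP_61161c_nt.SymmetricRightConstant

open Pool.Agent.Lib.MP_7b7e48_nt

theorem result : ∃ C₂ : ℝ, 0 < C₂ ∧
    Tendsto (fun z : ℕ => ∏ p ∈ (Nat.primesBelow z).filter (2 < ·), (1 - 1 / ((p : ℝ) - 1) ^ 2))
      atTop (𝓝 C₂) ∧
    ∀ ε : ℝ, 0 < ε → ∃ c : ℝ, 0 < c ∧ ∃ X₀ : ℕ, ∀ X K : ℕ, X₀ ≤ X →
      (Real.log X) ^ 2 ≤ K → (K : ℝ) ≤ c * X →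
      c * X ≤ (((Finset.Icc 1 X).filter (fun n =>
        ((1 - ε) * (2 * C₂ *
            ∏ p ∈ n.primeFactors.filter (2 < ·), ((((p : ℕ) : ℝ) - 1) / (((p : ℕ) : ℝ) - 2))) + c) *
          ((K : ℝ) ^ 2 / 2 * ((Nat.primeCounting X : ℝ) / X) ^ 2) ≤
          ∑ k ∈ (Finset.Icc 1 K).filter (fun k => (n - k).Prime ∧ (n + k).Prime),
            ((K : ℝ) - k))).card : ℝ) := by
  obtain ⟨C₂, hC0, hlim, hC₂⟩ := exists_twin
  refine ⟨C₂, hC0, hlim, fun ε hε => ?_⟩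
  set δ : ℝ := min ε 1 with hδ
  have hδ0 : 0 < δ := by positivity
  have hδ1 : δ ≤ 1 := min_le_right _ _
  have hδε : δ ≤ ε := min_le_left _ _
  obtain ⟨c, hc0, X₀, hX₀⟩ := balanced_right C₂ hC0 hC₂ δ hδ0 hδ1
  refine ⟨c, hc0, X₀, fun X K hX hK1 hK2 => (hX₀ X hX K hK1 hK2).trans ?_⟩
  have hsub : (Finset.Icc 1 X).filter (fun n =>
      ((1 - δ) * (2 * C₂ * hlF n) + c) *
        ((K : ℝ) ^ 2 / 2 * ((Nat.primeCounting X : ℝ) / X) ^ 2) ≤ wRep K n) ⊆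
      (Finset.Icc 1 X).filter (fun n =>
        ((1 - ε) * (2 * C₂ *
            ∏ p ∈ n.primeFactors.filter (2 < ·), ((((p : ℕ) : ℝ) - 1) / (((p : ℕ) : ℝ) - 2))) + c) *
          ((K : ℝ) ^ 2 / 2 * ((Nat.primeCounting X : ℝ) / X) ^ 2) ≤
          ∑ k ∈ (Finset.Icc 1 K).filter (fun k => (n - k).Prime ∧ (n + k).Prime),
            ((K : ℝ) - k)) := by
    intro n hn
    have hn := Finset.mem_filter.mp hn
    refine Finset.mem_filter.mpr ⟨hn.1, le_trans ?_ hn.2⟩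
    have hF : (∏ p ∈ n.primeFactors.filter (2 < ·), ((((p : ℕ) : ℝ) - 1) / (((p : ℕ) : ℝ) - 2))) =
      hlF n := rfl
    rw [hF]
    have hF0 := hlF_nonneg n
    have h1 : (1 - ε) * (2 * C₂ * hlF n) ≤ (1 - δ) * (2 * C₂ * hlF n) := by
      gcongr
    gcongr
  exact_mod_cast Finset.card_le_card hsub

end Pool.Agent.Results.MP_61161c_nt.SymmetricRightConstant
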