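import Pool.Agent.Lib.MP_7b7e48_nt.LX.Sum2

/-!
# Sums of two different primes from sets of given densities

Let `A` and `B` be sets of primes of lower relative densities at least `α` and `β`. For a prime
`q ≥ 5` let `m` be the product of the odd primes `< q` and
`G q x = φ(m)/m * (φ(m) x) ^ (log q / log (q - 1) - 1)`. Then the `n` such that `2 n = a + b` with
different `a ∈ A`, `b ∈ B` have lower density at least `max (β * G q α) (α * G q β)`. For
`α = 1/φ(m)`, `β = j/φ(m)` (`1 ≤ j ≤ φ(m)`) the bound is `j/m`, and it is the best possible one: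
there are `A`, `B` of these densities for which the `n` have density exactly `j/m`.
-/

open Filter Topology

namespace Pool.Agent.Lib.MP_7b7e48_nt.Shelf.TwoDenseSets

/-- The number of elements of `B` in `[1,x]`. -/
noncomputable def cnt (B : Set ℕ) (x : ℕ) : ℝ := (B ∩ Set.Icc 1 x).ncard

/-- The `n` such that `2 n` is the sum of an element of `A` and a different element of `B`. -/
def sums (A B : Set ℕ) : Set ℕ := {n | ∃ a ∈ A, ∃ b ∈ B, a ≠ b ∧ a + b = 2 * n}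

/-- The lower density of `D`. -/
noncomputable def lowDens (D : Set ℕ) : ℝ := liminf (fun x : ℕ => cnt D x / x) atTop

/-- The lower density of `A` relative to the primes. -/
noncomputable def relDens (A : Set ℕ) : ℝ :=
  liminf (fun x : ℕ => cnt A x / (Nat.primeCounting x : ℝ)) atTop

/-- The odd primes below `q`. -/
def oddBelow (q : ℕ) : Finset ℕ := (Finset.range q).filter fun p => p.Prime ∧ p ≠ 2

/-- The product `m` of the odd primes below `q`. -/
noncomputable def md (q : ℕ) : ℝ := ∏ p ∈ oddBelow q, (p : ℝ)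

/-- `φ(m)`, the product of the `p - 1` for the odd primes `p` below `q`. -/
noncomputable def ph (q : ℕ) : ℝ := ∏ p ∈ oddBelow q, ((p : ℝ) - 1)

/-- `φ(m)/m * (φ(m) x) ^ (log q / log (q - 1) - 1)`. -/
noncomputable def G (q : ℕ) (x : ℝ) : ℝ :=
  ph q / md q * (ph q * x) ^ (Real.log q / Real.log ((q : ℝ) - 1) - 1)

open Pool.Agent.Lib.MP_7b7e48_nt Pool.Agent.Lib.MP_7b7e48_nt.SP Pool.Agent.Lib.MP_7b7e48_nt.LX

theorem G_eq (q : ℕ) : G q = G2 q := by
  funext x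
  show ph q / md q * _ = (∏ p ∈ op q, (1 - 1 / (p : ℝ))) * _
  have h : ph q / md q = ∏ p ∈ op q, (1 - 1 / (p : ℝ)) := by
    show (∏ p ∈ op q, ((p : ℝ) - 1)) / (∏ p ∈ op q, (p : ℝ)) = _
    rw [← Finset.prod_div_distrib]
    refine Finset.prod_congr rfl fun p hp => ?_
    have := op_three hp
    field_simp
  rw [h]
  rfl

theorem cnt_eq (B : Set ℕ) [DecidablePred (· ∈ B)] (x : ℕ) :
    cnt B x = (((Finset.Icc 1 x).filter (· ∈ B)).card : ℝ) := by
  unfold cnt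
  rw [← Set.ncard_coe_finset]
  congr 2
  ext n
  simp only [Set.mem_inter_iff, Set.mem_Icc, Finset.coe_filter, Finset.mem_Icc, Set.mem_ofPred_eq]
  tauto

theorem cnt_nonneg (B : Set ℕ) (x : ℕ) : 0 ≤ cnt B x := Nat.cast_nonneg _

theorem cnt_le (B : Set ℕ) (x : ℕ) : cnt B x ≤ x := by
  classical
  rw [cnt_eq]
  have := Finset.card_filter_le (Finset.Icc 1 x) (· ∈ B)
  rw [Nat.card_Icc, Nat.add_sub_cancel] at this
  exact_mod_cast this

theorem cnt_prime {A : Set ℕ} (hA : ∀ a ∈ A, a.Prime) [DecidablePred (· ∈ A)] (x : ℕ) :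
    cnt A x = (((Finset.range (x + 1)).filter (· ∈ A)).card : ℝ) := by
  rw [cnt_eq]
  congr 2
  ext n
  rw [Finset.mem_filter, Finset.mem_filter, Finset.mem_Icc, Finset.mem_range]
  constructor
  · rintro ⟨h1, h2⟩
    exact ⟨by omega, h2⟩
  · rintro ⟨h1, h2⟩
    exact ⟨⟨(hA n h2).one_le, by omega⟩, h2⟩

theorem cnt_le_pi {A : Set ℕ} (hA : ∀ a ∈ A, a.Prime) (x : ℕ) :
    cnt A x ≤ (Nat.primeCounting x : ℝ) := by
  classical
  rw [cnt_prime hA, Nat.primeCounting, Nat.primeCounting', Nat.count_eq_card_filter_range]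
  exact_mod_cast Finset.card_le_card fun p hp => by
    rw [Finset.mem_filter] at hp ⊢
    exact ⟨hp.1, hA p hp.2⟩

theorem rel_bdd {A : Set ℕ} (hA : ∀ a ∈ A, a.Prime) (x : ℕ) :
    0 ≤ cnt A x / (Nat.primeCounting x : ℝ) ∧ cnt A x / (Nat.primeCounting x : ℝ) ≤ 1 :=
  ⟨div_nonneg (cnt_nonneg _ _) (Nat.cast_nonneg _),
    div_le_one_of_le₀ (cnt_le_pi hA x) (Nat.cast_nonneg _)⟩

theorem sum_bdd (B : Set ℕ) (x : ℕ) : 0 ≤ cnt B x / x ∧ cnt B x / x ≤ 1 :=
  ⟨div_nonneg (cnt_nonneg _ _) (Nat.cast_nonneg _),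
    div_le_one_of_le₀ (cnt_le B x) (Nat.cast_nonneg _)⟩

theorem isBounded_ge {u : ℕ → ℝ} (h : ∀ x, 0 ≤ u x) : IsBoundedUnder (· ≥ ·) atTop u :=
  isBoundedUnder_of ⟨0, h⟩

theorem isCobounded_ge {u : ℕ → ℝ} (h : ∀ x, u x ≤ 1) : IsCoboundedUnder (· ≥ ·) atTop u :=
  (isBoundedUnder_of ⟨1, h⟩ : IsBoundedUnder (· ≤ ·) atTop u).isCoboundedUnder_ge

theorem pi_pos {x : ℕ} (hx : 2 ≤ x) : 0 < (Nat.primeCounting x : ℝ) := by
  have : 0 < Nat.primeCounting x := by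
    have h4 := Nat.monotone_primeCounting hx
    have h5 : Nat.primeCounting 2 = 1 := by decide
    omega
  exact_mod_cast this

theorem count_lower {α : ℝ} {A : Set ℕ} (hA : ∀ a ∈ A, a.Prime) [DecidablePred (· ∈ A)]
    (hd : α ≤ relDens A) {ε : ℝ} (hε : 0 < ε) : ∃ X₀ : ℕ, ∀ x : ℕ, X₀ ≤ x →
      (α - ε) * (Nat.primeCounting x : ℝ) ≤
        (((Finset.range (x + 1)).filter (fun p => p ∈ A)).card : ℝ) := by
  have h1 := eventually_lt_of_lt_liminf (lt_of_lt_of_le (by linarith : α - ε < α) hd)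
    (isBounded_ge fun x => (rel_bdd hA x).1)
  obtain ⟨N, hN⟩ := eventually_atTop.mp h1
  refine ⟨max N 2, fun x hx => ?_⟩
  have h2 := hN x ((le_max_left _ _).trans hx)
  rw [lt_div_iff₀ (pi_pos ((le_max_right _ _).trans hx))] at h2
  have h4 := cnt_prime hA x
  refine h2.le.trans (le_of_eq ?_)
  rw [h4]

/-- the lower bound for two sets of primes of given lower relative densities -/
theorem lower {q : ℕ} (hq : 5 ≤ q) {α β : ℝ} (hα : 0 ≤ α) (hβ : 0 ≤ β) {A B : Set ℕ}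
    (hA : ∀ a ∈ A, a.Prime) (hB : ∀ b ∈ B, b.Prime)
    (hdA : α ≤ relDens A) (hdB : β ≤ relDens B) :
    β * G q α ≤ lowDens (sums A B) := by
  classical
  refine le_of_forall_pos_sub_le fun ε hε => ?_
  refine le_liminf_of_le (isCobounded_ge fun x => (sum_bdd _ x).2) ?_
  obtain ⟨X₀, hX₀⟩ := set_lower2 hq hα hβ hA hB (fun ε hε => by
    obtain ⟨N, hN⟩ := count_lower hA hdA hε
    exact ⟨N, fun x hx => by convert hN x hx⟩) (fun ε hε => by
    obtain ⟨N, hN⟩ := count_lower hB hdB hε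
    exact ⟨N, fun x hx => by convert hN x hx⟩) hε
  filter_upwards [eventually_ge_atTop (max X₀ 1)] with X hX
  have hX1 : (0 : ℝ) < X := by exact_mod_cast (le_max_right X₀ 1).trans hX
  have h1 := hX₀ X ((le_max_left _ _).trans hX)
  rw [le_div_iff₀ hX1, G_eq]
  refine h1.trans (le_of_eq ?_)
  rw [cnt_eq]
  rfl

theorem sums_comm (A B : Set ℕ) : sums A B = sums B A := by
  have h : ∀ A B : Set ℕ, sums A B ⊆ sums B A := by
    rintro A B n ⟨a, ha, b, hb, hne, hab⟩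
    exact ⟨b, hb, a, ha, hne.symm, by omega⟩
  exact Set.Subset.antisymm (h A B) (h B A)

theorem G_value (q : ℕ) : G q (1 / ph q) = ph q / md q := by
  have h : ph q ≠ 0 := (op_prod_pos q).ne'
  unfold G
  rw [mul_one_div_cancel h, Real.one_rpow, mul_one]

theorem pair_value (q : ℕ) (j : ℝ) : j / ph q * G q (1 / ph q) = j / md q := by
  have h : ph q ≠ 0 := (op_prod_pos q).ne'
  rw [G_value]
  field_simp

theorem attained {q j : ℕ} (hq : 5 ≤ q) (hj : (j : ℝ) ≤ ph q) :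
    ∃ A B : Set ℕ, (∀ a ∈ A, a.Prime) ∧ (∀ b ∈ B, b.Prime) ∧
      Tendsto (fun x : ℕ => cnt A x / (Nat.primeCounting x : ℝ)) atTop (𝓝 (1 / ph q)) ∧
      Tendsto (fun x : ℕ => cnt B x / (Nat.primeCounting x : ℝ)) atTop (𝓝 (j / ph q)) ∧
      Tendsto (fun x : ℕ => cnt (sums A B) x / x) atTop (𝓝 (j / md q)) := by
  classical
  obtain ⟨K, rfl⟩ : ∃ K, q = K + 1 := ⟨q - 1, by omega⟩
  have hK : 2 ≤ K := by omega
  have hun : ((un K).card : ℝ) = ph (K + 1) := card_un_op hK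
  obtain ⟨J, hJ, hJc⟩ := Finset.exists_subset_card_eq (s := un K) (n := j)
    (by rw [← hun] at hj; exact_mod_cast hj)
  have hpr : ∀ T : Finset ℕ, ∀ a ∈ clSet K T, a.Prime := fun T a ha => ha.1
  have hdens : ∀ T : Finset ℕ, T ⊆ un K → Tendsto (fun x : ℕ => cnt (clSet K T) x /
      (Nat.primeCounting x : ℝ)) atTop (𝓝 ((T.card : ℝ) / ph (K + 1))) := by
    intro T hT
    rw [Metric.tendsto_atTop]
    intro ε hε
    obtain ⟨X₀, hX₀⟩ := clSet_density hK hT (show 0 < ε / 2 by positivity)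
    refine ⟨max X₀ 2, fun x hx => ?_⟩
    obtain ⟨h2, h3⟩ := hX₀ x ((le_max_left _ _).trans hx)
    have h4 := pi_pos ((le_max_right _ _).trans hx : 2 ≤ x)
    have h5 : cnt (clSet K T) x =
        (((Finset.range (x + 1)).filter (fun p => p ∈ clSet K T)).card : ℝ) :=
      cnt_prime (hpr T) x
    rw [Real.dist_eq, h5]
    rw [hun] at h2 h3
    have h6 := (le_div_iff₀ h4).mpr h2
    have h7 := (div_le_iff₀ h4).mpr h3
    rw [abs_lt]
    constructor <;> linarith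
  have hA := hdens {1} (Finset.singleton_subset_iff.mpr (one_mem_un hK))
  have hB := hdens J hJ
  rw [Finset.card_singleton, Nat.cast_one] at hA
  rw [hJc] at hB
  refine ⟨clSet K {1}, clSet K J, hpr _, hpr _, hA, hB, ?_⟩
  have hph0 : 0 < ph (K + 1) := op_prod_pos _
  have hlow := lower hq (α := 1 / ph (K + 1)) (β := j / ph (K + 1))
    (one_div_pos.mpr hph0).le (div_nonneg (Nat.cast_nonneg _) hph0.le)
    (hpr {1}) (hpr J) hA.liminf_eq.ge hB.liminf_eq.ge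
  rw [pair_value] at hlow
  rw [Metric.tendsto_atTop]
  intro ε hε
  have h1 := eventually_lt_of_lt_liminf (lt_of_lt_of_le
    (by linarith : (j : ℝ) / md (K + 1) - ε < (j : ℝ) / md (K + 1)) hlow)
    (isBounded_ge fun x => (sum_bdd _ x).1)
  obtain ⟨N, hN⟩ := eventually_atTop.mp h1
  obtain ⟨N', hN'⟩ : ∃ N' : ℕ, 2 * (J.card : ℝ) / ε ≤ N' := exists_nat_ge _
  refine ⟨max (max N N') 1, fun X hX => ?_⟩
  have h2 := hN X ((le_max_left _ _).trans ((le_max_left _ _).trans hX))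
  have hX1 : (0 : ℝ) < X := by exact_mod_cast (le_max_right _ 1).trans hX
  have hXN : (N' : ℝ) ≤ X := by exact_mod_cast (le_max_right _ _).trans ((le_max_left _ _).trans hX)
  have h3 := clSet_sum hK J X
  have h4 : cnt (sums (clSet K {1}) (clSet K J)) X / X ≤ (j : ℝ) / md (K + 1) + ε / 2 := by
    rw [div_le_iff₀ hX1]
    have h5 : (J.card : ℝ) ≤ ε / 2 * X := by
      rw [div_le_iff₀ hε] at hN'
      nlinarith
    have h6 : (((ol (K + 1)).prod : ℕ) : ℝ) = md (K + 1) := prod_ol _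
    rw [h6, hJc] at h3
    have h7 : cnt (sums (clSet K {1}) (clSet K J)) X ≤ (X : ℝ) * ((j : ℝ) / md (K + 1)) + j := by
      refine le_trans (le_of_eq ?_) h3
      rw [cnt_eq]
      rfl
    rw [hJc] at h5
    linarith
  rw [Real.dist_eq, abs_lt]
  constructor <;> linarith

/-- **Sums of two different primes from sets of given densities.** -/
theorem result :
    (∀ q : ℕ, q.Prime → 5 ≤ q → ∀ α β : ℝ, 0 ≤ α → 0 ≤ β →
      (∀ A B : Set ℕ, (∀ a ∈ A, a.Prime) → (∀ b ∈ B, b.Prime) →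
        α ≤ relDens A → β ≤ relDens B →
        max (β * G q α) (α * G q β) ≤ lowDens (sums A B)) ∧
      ∀ ε : ℝ, 0 < ε → ∃ δ c : ℝ, 0 < δ ∧ δ ≤ 1 ∧ 0 < c ∧ ∃ X₀ : ℕ, ∀ X : ℕ, X₀ ≤ X →
        ∀ A B : Finset ℕ, (∀ a ∈ A, a.Prime ∧ (a : ℝ) ≤ δ * X) →
          (∀ b ∈ B, b.Prime ∧ b ≤ 2 * X) →
          α * (Nat.primeCounting ⌊δ * X⌋₊ : ℝ) ≤ A.card →
          β * (Nat.primeCounting (2 * X) : ℝ) ≤ B.card →
          (β * G q α - ε) * X ≤ (((Finset.Icc 1 X).filter fun n => c * X / Real.log X ^ 2 ≤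
            (((A ×ˢ B).filter fun x => x.1 ≠ x.2 ∧ x.1 + x.2 = 2 * n).card : ℝ)).card : ℝ)) ∧
    (∀ q : ℕ, q.Prime → 5 ≤ q → ∀ j : ℕ, (j : ℝ) ≤ ph q →
      IsLeast {d : ℝ | ∃ A B : Set ℕ, (∀ a ∈ A, a.Prime) ∧ (∀ b ∈ B, b.Prime) ∧
        1 / ph q ≤ relDens A ∧ j / ph q ≤ relDens B ∧ d = lowDens (sums A B)} (j / md q) ∧
      ∃ A B : Set ℕ, (∀ a ∈ A, a.Prime) ∧ (∀ b ∈ B, b.Prime) ∧
        Tendsto (fun x : ℕ => cnt A x / (Nat.primeCounting x : ℝ)) atTop (𝓝 (1 / ph q)) ∧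
        Tendsto (fun x : ℕ => cnt B x / (Nat.primeCounting x : ℝ)) atTop (𝓝 (j / ph q)) ∧
        Tendsto (fun x : ℕ => cnt (sums A B) x / x) atTop (𝓝 (j / md q))) := by
  refine ⟨fun q _ hq α β hα hβ => ⟨fun A B hA hB hdA hdB => ?_, fun ε hε => ?_⟩,
    fun q _ hq j hj => ⟨⟨?_, ?_⟩, attained hq hj⟩⟩
  · refine max_le (lower hq hα hβ hA hB hdA hdB) ?_
    rw [sums_comm]
    exact lower hq hβ hα hB hA hdB hdA
  · obtain ⟨δ, hδ, hδ1, c, hc, X₀, hX₀⟩ := main_lower2 hq hα hβ hε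
    refine ⟨δ, c, hδ, hδ1, hc, X₀, fun X hX A B hA hB hcA hcB => ?_⟩
    rw [G_eq]
    exact hX₀ X hX A B hA hcA hB hcB
  · obtain ⟨A, B, hA, hB, htA, htB, ht⟩ := attained hq hj
    exact ⟨A, B, hA, hB, htA.liminf_eq.ge, htB.liminf_eq.ge, ht.liminf_eq.symm⟩
  · rintro d ⟨A, B, hA, hB, hdA, hdB, rfl⟩
    have hph0 : 0 < ph q := op_prod_pos _
    have h := lower hq (α := 1 / ph q) (β := j / ph q) (one_div_pos.mpr hph0).le
      (div_nonneg (Nat.cast_nonneg _) hph0.le) hA hB hdA hdB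
    rwa [pair_value] at h

end Pool.Agent.Lib.MP_7b7e48_nt.Shelf.TwoDenseSets
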